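import Mathlib

set_option autoImplicit false

namespace Pool.Agent.Lib.MP_b06a2d_nt

open UpperHalfPlane hiding I
open Complex ModularForm Filter Topology EisensteinSeries

open scoped Real MatrixGroups

lemma quad_lower {x y : ℝ} {D : ℕ} (hD : 0 < D) (hx : |x| ≤ 1) (hy : 1 / (D : ℝ) ≤ y) (c d : ℝ) :
    (c ^ 2 + d ^ 2) / (3 * (D : ℝ) ^ 2) ≤ (c * x + d) ^ 2 + (c * y) ^ 2 := by
  have hD' : (1 : ℝ) ≤ D := by exact_mod_cast hD
  have hD0 : (0 : ℝ) < D := by linarith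
  have hDy : 1 ≤ D * y := by
    rw [div_le_iff₀ hD0] at hy
    linarith
  have hy0 : 0 < y := lt_of_lt_of_le (by positivity) hy
  have hx2 : x ^ 2 ≤ 1 := by
    rw [← sq_abs]; nlinarith [abs_nonneg x]
  set T := x ^ 2 + y ^ 2 + 1 with hT
  have hTpos : 0 < T := by positivity
  have key : ((c * x + d) ^ 2 + (c * y) ^ 2) * T - y ^ 2 * (c ^ 2 + d ^ 2) =
      (c * (x ^ 2 + y ^ 2) + d * x) ^ 2 + (c * x + d) ^ 2 := by
    rw [hT]; ring
  have h1 : y ^ 2 * (c ^ 2 + d ^ 2) ≤ ((c * x + d) ^ 2 + (c * y) ^ 2) * T := by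
    nlinarith [sq_nonneg (c * (x ^ 2 + y ^ 2) + d * x), sq_nonneg (c * x + d)]
  have hDy2 : 1 ≤ D ^ 2 * y ^ 2 := by
    have := mul_le_mul hDy hDy (by norm_num) (by positivity)
    nlinarith
  have hyD : y ^ 2 ≤ D ^ 2 * y ^ 2 := by
    have : (1 : ℝ) ≤ D ^ 2 := by nlinarith
    nlinarith [sq_nonneg y]
  have h2 : T ≤ 3 * D ^ 2 * y ^ 2 := by
    rw [hT]; nlinarith
  rw [div_le_iff₀ (by positivity)]
  have h3 : ((c * x + d) ^ 2 + (c * y) ^ 2) * T ≤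
      ((c * x + d) ^ 2 + (c * y) ^ 2) * (3 * D ^ 2 * y ^ 2) := by
    gcongr
  have h4 : y ^ 2 * (c ^ 2 + d ^ 2) ≤ y ^ 2 * (((c * x + d) ^ 2 + (c * y) ^ 2) * (3 * D ^ 2)) := by
    calc _ ≤ _ := h1
      _ ≤ _ := h3
      _ = _ := by ring
  exact le_of_mul_le_mul_left h4 (by positivity)

/-- the one-dimensional sum -/
noncomputable def oneSum : ℝ := ∑' n : ℤ, 1 / (1 + (n : ℝ) ^ 2)

lemma summable_one : Summable fun n : ℤ ↦ 1 / (1 + (n : ℝ) ^ 2) := by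
  have h := (Real.summable_one_div_int_pow (p := 2)).mpr (by norm_num)
  refine Summable.of_norm_bounded_eventually (g := fun n : ℤ ↦ 1 / (n : ℝ) ^ 2) h ?_
  have : ∀ᶠ n : ℤ in cofinite, n ≠ 0 := by
    simpa using (Set.finite_singleton (0 : ℤ)).compl_mem_cofinite
  filter_upwards [this] with n hn
  rw [Real.norm_of_nonneg (by positivity)]
  have : (0 : ℝ) < (n : ℝ) ^ 2 := by positivity
  gcongr
  linarith

lemma oneSum_le : oneSum ≤ 4.3 := by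
  rw [oneSum, tsum_int_eq_zero_add_two_mul_tsum_pnat (fun n ↦ by simp) summable_one]
  have hz := hasSum_zeta_two
  have h1 : ∑' n : ℕ+, 1 / (1 + (((n : ℕ) : ℤ) : ℝ) ^ 2) ≤ π ^ 2 / 6 := by
    have hs : Summable fun n : ℕ+ ↦ 1 / ((n : ℕ) : ℝ) ^ 2 :=
      hz.summable.comp_injective PNat.coe_injective
    have hs' : ∑' n : ℕ+, 1 / ((n : ℕ) : ℝ) ^ 2 ≤ π ^ 2 / 6 := by
      rw [← hz.tsum_eq]
      exact tsum_comp_le_tsum_of_inj hz.summable (fun n ↦ by positivity) PNat.coe_injective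
    refine le_trans (Summable.tsum_le_tsum (fun n ↦ ?_) ?_ hs) hs'
    · have : (0 : ℝ) < ((n : ℕ) : ℝ) ^ 2 := by positivity
      push_cast
      gcongr
      linarith
    · exact summable_one.comp_injective (i := fun n : ℕ+ ↦ ((n : ℕ) : ℤ))
        (fun a b h ↦ PNat.coe_injective (by simpa using h))
  have hpi : π ^ 2 / 6 ≤ 1.645 := by
    have := Real.pi_lt_d4
    have := Real.pi_pos
    nlinarith
  have : (1 : ℝ) / (1 + ((0 : ℤ) : ℝ) ^ 2) = 1 := by norm_num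
  rw [this]
  have h3 : ∑' n : ℕ+, 1 / (1 + (((n : ℕ) : ℤ) : ℝ) ^ 2) ≤ 1.645 := h1.trans hpi
  rw [nsmul_eq_mul]
  push_cast at h3 ⊢
  linarith

lemma oneSum_nonneg : 0 ≤ oneSum := tsum_nonneg fun n ↦ by positivity

/-- The majorant of the terms of the Eisenstein series. -/
noncomputable def maj (v : Fin 2 → ℤ) : ℝ := 1 / (1 + (v 0 : ℝ) ^ 2) * (1 / (1 + (v 1 : ℝ) ^ 2))

lemma hasSum_maj : HasSum maj (oneSum * oneSum) := by
  have hs := summable_one.mul_of_nonneg summable_one (fun n ↦ by positivity)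
    (fun n ↦ by positivity)
  have h : HasSum (fun x : ℤ × ℤ ↦ 1 / (1 + (x.1 : ℝ) ^ 2) * (1 / (1 + (x.2 : ℝ) ^ 2)))
      (oneSum * oneSum) := summable_one.hasSum.mul summable_one.hasSum hs
  exact (finTwoArrowEquiv ℤ).hasSum_iff.mpr h

lemma one_div_sq_add_sq_le {c d : ℤ} (hc : c ≠ 0) :
    1 / ((c : ℝ) ^ 2 + (d : ℝ) ^ 2) ^ 2 ≤
      2 * (1 / (1 + (c : ℝ) ^ 2) * (1 / (1 + (d : ℝ) ^ 2))) := by
  have h1 : (1 : ℝ) ≤ (c : ℝ) ^ 2 := by
    have : 1 ≤ c ^ 2 := by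
      have := sq_nonneg c
      have : c ^ 2 ≠ 0 := pow_ne_zero 2 hc
      omega
    exact_mod_cast this
  have hd := sq_nonneg (d : ℝ)
  have h2 : 1 / (1 + (c : ℝ) ^ 2) * (1 / (1 + (d : ℝ) ^ 2)) =
      1 / ((1 + (c : ℝ) ^ 2) * (1 + (d : ℝ) ^ 2)) := by
    rw [one_div_mul_one_div]
  rw [h2, mul_one_div, div_le_div_iff₀ (by positivity) (by positivity)]
  nlinarith [mul_nonneg hd hd, mul_nonneg (sub_nonneg.mpr h1) hd,
    mul_nonneg (sub_nonneg.mpr h1) (sub_nonneg.mpr h1)]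

lemma norm_eisSummand_le {j k : ℕ} (hkj : k = 2 * j + 4) (z : ℍ) {D : ℕ} (hD : 0 < D)
    (hre : |z.re| ≤ 1) (him : 1 / (D : ℝ) ≤ z.im) {μ : ℝ} (hμ : 0 < μ) (v : Fin 2 → ℤ)
    (hv : v 0 ≠ 0) (hmin : μ ≤ ‖(v 0 : ℂ) * z + v 1‖ ^ 2) :
    ‖eisSummand k v z‖ ≤ 18 * (D : ℝ) ^ 4 * (μ⁻¹) ^ j * maj v := by
  have hnorm : ‖eisSummand k v z‖ = ((‖(v 0 : ℂ) * z + v 1‖ ^ 2)⁻¹) ^ j *
      ((‖(v 0 : ℂ) * z + v 1‖ ^ 2)⁻¹) ^ 2 := by
    rw [eisSummand, norm_zpow, hkj, zpow_neg, zpow_natCast, ← pow_add, inv_pow, ← pow_mul]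
    ring_nf
  have hsq : ‖(v 0 : ℂ) * z + v 1‖ ^ 2 = ((v 0 : ℝ) * z.re + v 1) ^ 2 + ((v 0 : ℝ) * z.im) ^ 2 := by
    rw [← Complex.normSq_eq_norm_sq, Complex.normSq_apply]
    simp
    ring
  have hlow := quad_lower (x := z.re) (y := z.im) hD hre him (v 0) (v 1)
  rw [← hsq] at hlow
  have hD' : (0 : ℝ) < D := by exact_mod_cast hD
  have hc2 : (0 : ℝ) < (v 0 : ℝ) ^ 2 := by positivity
  have hpos : (0 : ℝ) < ((v 0 : ℝ) ^ 2 + (v 1 : ℝ) ^ 2) / (3 * (D : ℝ) ^ 2) := by positivity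
  have h1 : ((‖(v 0 : ℂ) * z + v 1‖ ^ 2)⁻¹) ^ 2 ≤ 9 * (D : ℝ) ^ 4 * (2 * maj v) := by
    calc ((‖(v 0 : ℂ) * z + v 1‖ ^ 2)⁻¹) ^ 2
        ≤ ((((v 0 : ℝ) ^ 2 + (v 1 : ℝ) ^ 2) / (3 * (D : ℝ) ^ 2))⁻¹) ^ 2 := by
          gcongr
      _ = 9 * (D : ℝ) ^ 4 * (1 / ((v 0 : ℝ) ^ 2 + (v 1 : ℝ) ^ 2) ^ 2) := by
          field_simp
          ring
      _ ≤ _ := by
          gcongr
          exact one_div_sq_add_sq_le hv
  have h2 : ((‖(v 0 : ℂ) * z + v 1‖ ^ 2)⁻¹) ^ j ≤ (μ⁻¹) ^ j := by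
    gcongr
  rw [hnorm]
  calc _ ≤ (μ⁻¹) ^ j * (9 * (D : ℝ) ^ 4 * (2 * maj v)) := by
        gcongr
    _ = _ := by ring

/-- Bound for `E_k - 1`. -/
lemma norm_E_sub_one_le {j k : ℕ} (hk : 3 ≤ k) (hkj : k = 2 * j + 4) (z : ℍ) {D : ℕ} (hD : 0 < D)
    (hre : |z.re| ≤ 1) (him : 1 / (D : ℝ) ≤ z.im) {μ : ℝ} (hμ : 0 < μ)
    (hmin : ∀ c d : ℤ, c ≠ 0 → IsCoprime c d → μ ≤ ‖(c : ℂ) * z + d‖ ^ 2) :
    ‖E hk z - 1‖ ≤ 200 * (D : ℝ) ^ 4 * (μ⁻¹) ^ j := by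
  classical
  have hE : E hk z = (1 / 2 : ℂ) * ∑' x : gammaSet 1 1 0, eisSummand k x z := rfl
  set S : Set (Fin 2 → ℤ) := gammaSet 1 1 0 with hS
  set f : (Fin 2 → ℤ) → ℂ := fun v ↦ eisSummand k v z with hf
  have hfsum : Summable f := summable_norm_iff.mp (summable_norm_eisSummand (by exact_mod_cast hk) z)
  have hmem : ∀ v : Fin 2 → ℤ, v ∈ S ↔ IsCoprime (v 0) (v 1) := fun v ↦ mem_gammaSet_one v
  set P : Finset (Fin 2 → ℤ) := {![0, 1], ![0, -1]} with hP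
  set B : (Fin 2 → ℤ) → ℂ := fun v ↦ if v ∈ S ∧ v 0 ≠ 0 then f v else 0 with hB
  set A : (Fin 2 → ℤ) → ℂ := fun v ↦ if v ∈ P then 1 else 0 with hA
  have heven : Even k := ⟨j + 2, by omega⟩
  have hsplit : ∀ v, S.indicator f v = A v + B v := by
    intro v
    by_cases hvS : v ∈ S
    · by_cases hv0 : v 0 = 0
      · have hcop := (hmem v).mp hvS
        rw [hv0, isCoprime_zero_left, Int.isUnit_iff] at hcop
        have hvP : v ∈ P := by
          rcases hcop with h | h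
          · have : v = ![0, 1] := by ext i; fin_cases i <;> simp [hv0, h]
            simp [hP, this]
          · have : v = ![0, -1] := by ext i; fin_cases i <;> simp [hv0, h]
            simp [hP, this]
        have hfv : f v = 1 := by
          simp only [hf, eisSummand, hv0]
          rcases hcop with h | h
          · simp [h]
          · simp [h, heven.neg_one_pow]
        simp [Set.indicator_of_mem hvS, hA, hB, hvP, hv0, hfv]
      · have hvP : v ∉ P := by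
          intro h
          simp only [hP, Finset.mem_insert, Finset.mem_singleton] at h
          rcases h with h | h <;> simp [h] at hv0
        simp [hA, hB, hvP, hv0, hvS]
    · have hvP : v ∉ P := by
        intro h
        apply hvS
        rw [hmem]
        simp only [hP, Finset.mem_insert, Finset.mem_singleton] at h
        rcases h with h | h
        · rw [h]; exact isCoprime_one_right
        · simp [h, isCoprime_zero_left]
      simp [hA, hB, hvP, hvS]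
  have hbound : ∀ v, ‖B v‖ ≤ 18 * (D : ℝ) ^ 4 * (μ⁻¹) ^ j * maj v := by
    intro v
    by_cases h : v ∈ S ∧ v 0 ≠ 0
    · simp only [hB, if_pos h]
      exact norm_eisSummand_le hkj z hD hre him hμ v h.2 (hmin _ _ h.2 ((hmem v).mp h.1))
    · simp only [hB, if_neg h, norm_zero]
      have : 0 ≤ maj v := by unfold maj; positivity
      positivity
  have hmaj := hasSum_maj.mul_left (18 * (D : ℝ) ^ 4 * (μ⁻¹) ^ j)
  have hBsum : Summable B := Summable.of_norm_bounded hmaj.summable hbound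
  have hBle : ‖∑' v, B v‖ ≤ 18 * (D : ℝ) ^ 4 * (μ⁻¹) ^ j * (oneSum * oneSum) := by
    rw [← hmaj.tsum_eq]
    exact tsum_of_norm_bounded hmaj.summable.hasSum hbound
  have hAsum : HasSum A 2 := by
    have h : HasSum A (∑ v ∈ P, A v) := hasSum_sum_of_ne_finset_zero (fun v hv ↦ by simp [hA, hv])
    have h2 : ∑ v ∈ P, A v = 2 := by
      rw [Finset.sum_congr rfl (fun v hv ↦ by simp only [hA, if_pos hv] : ∀ v ∈ P, A v = 1)]
      have hcard : P.card = 2 := by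
        rw [hP]
        exact Finset.card_pair (by
          intro h
          have := congrFun h 1
          simp at this)
      simp [hcard]
    rwa [h2] at h
  have htot : ∑' x : S, f x = 2 + ∑' v, B v := by
    rw [tsum_subtype S f]
    simp_rw [hsplit]
    rw [(hAsum.summable).tsum_add hBsum, hAsum.tsum_eq]
  have hE1 : E hk z - 1 = (1 / 2 : ℂ) * ∑' v, B v := by
    rw [hE, htot]; ring
  rw [hE1, norm_mul]
  have h5 : oneSum * oneSum ≤ 4.3 * 4.3 := mul_le_mul oneSum_le oneSum_le oneSum_nonneg (by norm_num)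
  have h6 : ‖(1 / 2 : ℂ)‖ = 1 / 2 := by simp
  rw [h6]
  have h7 : 0 ≤ (D : ℝ) ^ 4 * (μ⁻¹) ^ j := by positivity
  calc 1 / 2 * ‖∑' v, B v‖ ≤ 1 / 2 * (18 * (D : ℝ) ^ 4 * (μ⁻¹) ^ j * (4.3 * 4.3)) := by
        gcongr
        refine hBle.trans ?_
        gcongr
    _ ≤ 200 * (D : ℝ) ^ 4 * (μ⁻¹) ^ j := by nlinarith

end Pool.Agent.Lib.MP_b06a2d_nt
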