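import Mathlib

set_option autoImplicit false
set_option linter.unusedSimpArgs false

namespace Pool.Agent.Lib.MP_b06a2d_nt

open UpperHalfPlane hiding I
open Complex ModularForm Filter Topology MeasureTheory Set

open scoped Real MatrixGroups

/-- Value of `f` at `x + i y`. -/
noncomputable def onLine (f : ℍ → ℂ) (x y : ℝ) : ℂ := f (ofComplex (x + y * I))

lemma ofComplex_line {x y : ℝ} (hy : 0 < y) :
    ofComplex ((x : ℂ) + y * I) = ⟨(x : ℂ) + y * I, by simpa using hy⟩ :=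
  ofComplex_apply_of_im_pos (by simpa using hy)

lemma im_ofComplex_line {x y : ℝ} (hy : 0 < y) : (ofComplex ((x : ℂ) + y * I)).im = y := by
  rw [ofComplex_line hy]; simp [UpperHalfPlane.im]

lemma re_ofComplex_line {x y : ℝ} (hy : 0 < y) : (ofComplex ((x : ℂ) + y * I)).re = x := by
  rw [ofComplex_line hy]; simp [UpperHalfPlane.re]

lemma coe_ofComplex_line {x y : ℝ} (hy : 0 < y) :
    ((ofComplex ((x : ℂ) + y * I) : ℍ) : ℂ) = x + y * I := by
  rw [ofComplex_line hy]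

/-- Modularity along the line over `u/D`. -/
lemma onLine_transform {K : ℤ} (f : CuspForm 𝒮ℒ K) {D : ℕ} (hD : 0 < D) {u u' b : ℤ}
    (huu : u * u' + 1 = b * D) {t : ℝ} (ht : 0 < t) :
    onLine f (u' / D) t = (I / (D * t)) ^ K * onLine f (u / D) (1 / (D ^ 2 * t)) := by
  have hD' : (0 : ℝ) < D := by exact_mod_cast hD
  have hDC : (D : ℂ) ≠ 0 := by exact_mod_cast hD.ne'
  have htC : (t : ℂ) ≠ 0 := by exact_mod_cast ht.ne'
  have hy : 0 < 1 / ((D : ℝ) ^ 2 * t) := by positivity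
  set y : ℝ := 1 / ((D : ℝ) ^ 2 * t) with hydef
  let γ : SL(2, ℤ) := ⟨!![u', -b; (D : ℤ), -u], by
    rw [Matrix.det_fin_two_of]; linear_combination (-1 : ℤ) * huu⟩
  set z : ℍ := ofComplex (((u / D : ℝ) : ℂ) + y * I) with hz
  have hzc : (z : ℂ) = ((u / D : ℝ) : ℂ) + y * I := coe_ofComplex_line hy
  have hdenom : denom γ z = I / (D * t) := by
    rw [ModularGroup.denom_apply, hzc]
    simp only [γ, Matrix.SpecialLinearGroup.coe_mk, Matrix.of_apply, Matrix.cons_val', Matrix.cons_val_zero,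
      Matrix.cons_val_one, Matrix.cons_val_fin_one]
    rw [hydef]
    push_cast
    field_simp
    ring
  have hbC : (u : ℂ) * u' + 1 = b * D := by exact_mod_cast huu
  have hsmul : γ • z = ofComplex (((u' / D : ℝ) : ℂ) + t * I) := by
    apply UpperHalfPlane.ext
    rw [coe_ofComplex_line ht, coe_specialLinearGroup_apply, hzc]
    simp only [γ, Matrix.SpecialLinearGroup.coe_mk, Matrix.of_apply, Matrix.cons_val',
      Matrix.cons_val_zero, Matrix.cons_val_one, Matrix.cons_val_fin_one, hydef]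
    push_cast
    simp only [algebraMap_int_eq, eq_intCast, Int.cast_natCast, Int.cast_neg, ofReal_neg,
      ofReal_intCast, ofReal_natCast]
    have hI : I ≠ 0 := I_ne_zero
    have hI2 : I ^ 2 = -1 := I_sq
    have hden : (D : ℂ) * ((u : ℂ) / D + 1 / (D ^ 2 * t) * I) + -u = I / (D * t) := by
      field_simp
      ring
    rw [hden]
    field_simp
    linear_combination ((t : ℂ) * D) * hbC + (-(t:ℂ) * D) * hI2
  have hclass : SlashInvariantFormClass (CuspForm 𝒮ℒ K) (CongruenceSubgroup.Gamma 1) K :=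
    CongruenceSubgroup.Gamma_one_coe_eq_SL ▸ (inferInstance : SlashInvariantFormClass (CuspForm 𝒮ℒ K) 𝒮ℒ K)
  have := SlashInvariantForm.slash_action_eqn_SL'' (Γ := CongruenceSubgroup.Gamma 1) f
    (CongruenceSubgroup.mem_Gamma_one γ) z
  rw [hsmul, hdenom] at this
  exact this

lemma one_div_sq_mul {D : ℕ} (hD : 0 < D) {t : ℝ} (ht : 0 < t) :
    1 / ((D : ℝ) ^ 2 * (1 / ((D : ℝ) ^ 2 * t))) = t := by
  have hD' : (0 : ℝ) < D := by exact_mod_cast hD
  field_simp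

/-- The map `t ↦ 1/(D² t)`. -/
lemma image_flip {D : ℕ} (hD : 0 < D) :
    (fun t : ℝ ↦ 1 / ((D : ℝ) ^ 2 * t)) '' Ioi (1 / (D : ℝ)) = Ioo 0 (1 / (D : ℝ)) := by
  have hD' : (0 : ℝ) < D := by exact_mod_cast hD
  ext y
  constructor
  · rintro ⟨t, ht, rfl⟩
    have ht0 : 0 < t := lt_trans (by positivity) (mem_Ioi.mp ht)
    refine ⟨by positivity, ?_⟩
    have h1 : 1 / (D : ℝ) < t := ht
    rw [div_lt_iff₀ hD'] at h1
    show 1 / ((D : ℝ) ^ 2 * t) < 1 / D
    rw [div_lt_div_iff₀ (by positivity) hD']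
    nlinarith
  · rintro ⟨hy0, hy1⟩
    refine ⟨1 / ((D : ℝ) ^ 2 * y), ?_, one_div_sq_mul hD hy0⟩
    rw [lt_div_iff₀ hD'] at hy1
    show 1 / (D : ℝ) < 1 / ((D : ℝ) ^ 2 * y)
    rw [div_lt_div_iff₀ hD' (by positivity)]
    nlinarith

lemma injOn_flip {D : ℕ} (hD : 0 < D) :
    InjOn (fun t : ℝ ↦ 1 / ((D : ℝ) ^ 2 * t)) (Ioi (1 / (D : ℝ))) := by
  have hD' : (0 : ℝ) < D := by exact_mod_cast hD
  intro a ha b hb hab
  have ha0 : 0 < a := lt_trans (by positivity) (mem_Ioi.mp ha)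
  have hb0 : 0 < b := lt_trans (by positivity) (mem_Ioi.mp hb)
  rw [← one_div_sq_mul hD ha0, ← one_div_sq_mul hD hb0]
  simp only at hab
  rw [hab]

lemma hasDeriv_flip {D : ℕ} (hD : 0 < D) :
    ∀ t ∈ Ioi (1 / (D : ℝ)), HasDerivWithinAt (fun t : ℝ ↦ 1 / ((D : ℝ) ^ 2 * t))
      (-(1 / ((D : ℝ) ^ 2 * t ^ 2))) (Ioi (1 / (D : ℝ))) t := by
  intro t ht
  have hD' : (0 : ℝ) < D := by exact_mod_cast hD
  have ht0 : 0 < t := lt_trans (by positivity) (mem_Ioi.mp ht)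
  have hne : (D : ℝ) ^ 2 * id t ≠ 0 := by
    have : 0 < (D : ℝ) ^ 2 * t := by positivity
    exact this.ne'
  have h := ((hasDerivAt_id t).const_mul ((D : ℝ) ^ 2)).inv hne
  have h1 : (fun t : ℝ ↦ 1 / ((D : ℝ) ^ 2 * t)) = (fun y : ℝ ↦ (D : ℝ) ^ 2 * id y)⁻¹ := by
    funext s
    simp only [Pi.inv_apply, id, one_div]
  have h3 : -(1 / ((D : ℝ) ^ 2 * t ^ 2)) = -((D : ℝ) ^ 2 * 1) / ((D : ℝ) ^ 2 * id t) ^ 2 := by
    simp only [id]
    field_simp
  rw [h1, h3]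
  exact h.hasDerivWithinAt

/-- Change of variables `y = 1/(D² t)`. -/
lemma integral_flip {D : ℕ} (hD : 0 < D) (H : ℝ → ℂ) :
    ∫ y in Ioo 0 (1 / (D : ℝ)), H y =
      ∫ t in Ioi (1 / (D : ℝ)), (1 / ((D : ℝ) ^ 2 * t ^ 2)) • H (1 / ((D : ℝ) ^ 2 * t)) := by
  rw [← image_flip hD, integral_image_eq_integral_abs_deriv_smul measurableSet_Ioi
    (hasDeriv_flip hD) (injOn_flip hD)]
  refine setIntegral_congr_fun measurableSet_Ioi fun t ht ↦ ?_
  have hD' : (0 : ℝ) < D := by exact_mod_cast hD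
  have ht0 : 0 < t := lt_trans (by positivity) (mem_Ioi.mp ht)
  simp only [abs_neg]
  rw [abs_of_pos (by positivity)]

lemma integrableOn_flip {D : ℕ} (hD : 0 < D) (H : ℝ → ℂ) :
    IntegrableOn H (Ioo 0 (1 / (D : ℝ))) ↔ IntegrableOn
      (fun t ↦ (1 / ((D : ℝ) ^ 2 * t ^ 2)) • H (1 / ((D : ℝ) ^ 2 * t))) (Ioi (1 / (D : ℝ))) := by
  rw [← image_flip hD, integrableOn_image_iff_integrableOn_abs_deriv_smul measurableSet_Ioi
    (hasDeriv_flip hD) (injOn_flip hD)]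
  refine integrableOn_congr_fun (fun t ht ↦ ?_) measurableSet_Ioi
  have hD' : (0 : ℝ) < D := by exact_mod_cast hD
  have ht0 : 0 < t := lt_trans (by positivity) (mem_Ioi.mp ht)
  simp only [abs_neg]
  rw [abs_of_pos (by positivity)]

lemma tendsto_line_atImInfty (x : ℝ) :
    Tendsto (fun y : ℝ ↦ ofComplex ((x : ℂ) + y * I)) atTop atImInfty := by
  rw [atImInfty, tendsto_comap_iff]
  refine tendsto_id.congr' ?_
  filter_upwards [eventually_gt_atTop 0] with y hy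
  simp [im_ofComplex_line hy]

lemma continuousOn_onLine {K : ℤ} (f : CuspForm 𝒮ℒ K) (x : ℝ) :
    ContinuousOn (onLine f x) (Ioi 0) := by
  have hf : Continuous f := (CuspFormClass.holo f).continuous
  unfold onLine
  refine hf.comp_continuousOn ?_
  rw [continuousOn_iff_continuous_domRestrict]
  have him : ∀ y : Ioi (0 : ℝ), 0 < ((x : ℂ) + (y.1 : ℂ) * I).im := fun y ↦ by
    have h : 0 < y.1 := y.2
    simp only [add_im, ofReal_im, mul_im, ofReal_re, Complex.I_im, mul_one, Complex.I_re, mul_zero, add_zero,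
      zero_add]
    exact h
  have : (Ioi (0 : ℝ)).domRestrict (fun y : ℝ ↦ (ofComplex ((x : ℂ) + y * I) : ℍ)) =
      fun y ↦ (⟨(x : ℂ) + (y.1 : ℂ) * I, him y⟩ : ℍ) := by
    funext y
    exact ofComplex_apply_of_im_pos (him y)
  rw [this]
  refine UpperHalfPlane.isEmbedding_coe.continuous_iff.mpr ?_
  show Continuous (fun y : Ioi (0 : ℝ) ↦ (x : ℂ) + (y.1 : ℂ) * I)
  fun_prop

lemma isBigO_onLine {K : ℤ} (f : CuspForm 𝒮ℒ K) (x : ℝ) :
    (onLine f x) =O[atTop] (fun y ↦ Real.exp (-2 * π * y)) := by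
  have h := (CuspFormClass.exp_decay_atImInfty (h := 1) f one_pos
    one_mem_strictPeriods_SL).comp_tendsto (tendsto_line_atImInfty x)
  refine h.trans (EventuallyEq.isBigO ?_)
  filter_upwards [eventually_gt_atTop 0] with y hy
  simp [im_ofComplex_line hy]

lemma integrableOn_onLine {K : ℤ} (f : CuspForm 𝒮ℒ K) (x : ℝ) {a : ℝ} (ha : 0 < a) (n : ℕ) :
    IntegrableOn (fun y ↦ onLine f x y * (y : ℂ) ^ n) (Ioi a) := by
  have hcont : ContinuousOn (fun y : ℝ ↦ onLine f x y * (y : ℂ) ^ n) (Ici a) := by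
    refine ContinuousOn.mul ((continuousOn_onLine f x).mono fun y hy ↦ lt_of_lt_of_le ha hy) ?_
    fun_prop
  have hO : (fun y : ℝ ↦ ‖onLine f x y * (y : ℂ) ^ n‖) =O[atTop] fun y ↦ Real.exp (-1 * y) := by
    have h1 : (fun y : ℝ ↦ ‖onLine f x y * (y : ℂ) ^ n‖) =O[atTop]
        fun y ↦ Real.exp (-2 * π * y) * y ^ n := by
      refine Asymptotics.IsBigO.norm_left ((isBigO_onLine f x).mul ?_)
      refine Asymptotics.IsBigO.of_bound 1 (Eventually.of_forall fun y ↦ ?_)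
      simp
    have h2 : (fun y : ℝ ↦ y ^ n) =O[atTop] fun y ↦ Real.exp y :=
      (Real.isLittleO_pow_exp_atTop).isBigO
    refine h1.trans (((Asymptotics.isBigO_refl _ _).mul h2).trans ?_)
    refine Asymptotics.IsBigO.of_bound 1 ?_
    filter_upwards [eventually_ge_atTop 0] with y hy
    rw [← Real.exp_add, Real.norm_of_nonneg (Real.exp_pos _).le, one_mul,
      Real.norm_of_nonneg (Real.exp_pos _).le]
    apply Real.exp_le_exp.mpr
    nlinarith [Real.pi_gt_three]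
  have hint := integrable_of_isBigO_exp_neg one_pos hcont.norm hO
  exact (integrable_norm_iff ((hcont.mono Ioi_subset_Ici_self).aestronglyMeasurable
    measurableSet_Ioi)).mp hint

/-- The transformed integrand. -/
lemma flip_integrand {K : ℕ} (f : CuspForm 𝒮ℒ K) {D : ℕ} (hD : 0 < D) {u u' b : ℤ}
    (huu : u * u' + 1 = b * D) {n : ℕ} (hn : 2 * n + 2 ≤ K) {t : ℝ} (ht : 0 < t) :
    (1 / ((D : ℝ) ^ 2 * t ^ 2)) • (onLine f (u / D) (1 / ((D : ℝ) ^ 2 * t)) *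
      ((1 / ((D : ℝ) ^ 2 * t) : ℝ) : ℂ) ^ n) =
    ((I ^ K)⁻¹ * (D : ℂ) ^ (K - 2 * n - 2)) * (onLine f (u' / D) t * (t : ℂ) ^ (K - 2 - n)) := by
  have h := onLine_transform (K := (K : ℤ)) f hD huu ht
  have hDC : (D : ℂ) ≠ 0 := by exact_mod_cast hD.ne'
  have htC : (t : ℂ) ≠ 0 := by exact_mod_cast ht.ne'
  rw [h, zpow_natCast, real_smul]
  obtain ⟨m, rfl⟩ : ∃ m, K = 2 * n + 2 + m := ⟨K - (2 * n + 2), by omega⟩
  have e1 : 2 * n + 2 + m - 2 * n - 2 = m := by omega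
  have e2 : 2 * n + 2 + m - 2 - n = n + m := by omega
  rw [e1, e2]
  have hI : I ≠ 0 := I_ne_zero
  generalize onLine f (u / D) (1 / ((D : ℝ) ^ 2 * t)) = X
  push_cast
  simp only [div_pow, mul_pow, one_pow]
  field_simp
  ring

/-- Riemann-type splitting at `1/D`. -/
lemma integral_split {K : ℕ} (f : CuspForm 𝒮ℒ K) {D : ℕ} (hD : 0 < D) {u u' b : ℤ}
    (huu : u * u' + 1 = b * D) {n : ℕ} (hn : 2 * n + 2 ≤ K) :
    IntegrableOn (fun y : ℝ ↦ onLine f (u / D) y * (y : ℂ) ^ n) (Ioi 0) ∧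
    ∫ y in Ioi (0 : ℝ), onLine f (u / D) y * (y : ℂ) ^ n =
      (∫ y in Ioi (1 / (D : ℝ)), onLine f (u / D) y * (y : ℂ) ^ n) +
      ((I ^ K)⁻¹ * (D : ℂ) ^ (K - 2 * n - 2)) *
        ∫ t in Ioi (1 / (D : ℝ)), onLine f (u' / D) t * (t : ℂ) ^ (K - 2 - n) := by
  have hD' : (0 : ℝ) < D := by exact_mod_cast hD
  have hD1 : 0 < 1 / (D : ℝ) := by positivity
  set H : ℝ → ℂ := fun y : ℝ ↦ onLine f (u / D) y * (y : ℂ) ^ n with hH
  have hint1 : IntegrableOn H (Ioi (1 / (D : ℝ))) := integrableOn_onLine f _ hD1 n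
  have hcong : ∀ t ∈ Ioi (1 / (D : ℝ)), (1 / ((D : ℝ) ^ 2 * t ^ 2)) • H (1 / ((D : ℝ) ^ 2 * t)) =
      ((I ^ K)⁻¹ * (D : ℂ) ^ (K - 2 * n - 2)) * (onLine f (u' / D) t * (t : ℂ) ^ (K - 2 - n)) := by
    intro t ht
    exact flip_integrand f hD huu hn (lt_trans hD1 (mem_Ioi.mp ht))
  have hint2 : IntegrableOn (fun t : ℝ ↦ ((I ^ K)⁻¹ * (D : ℂ) ^ (K - 2 * n - 2)) *
      (onLine f (u' / D) t * (t : ℂ) ^ (K - 2 - n))) (Ioi (1 / (D : ℝ))) :=
    (integrableOn_onLine f _ hD1 (K - 2 - n)).const_mul _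
  have hint3 : IntegrableOn H (Ioo 0 (1 / (D : ℝ))) := by
    rw [integrableOn_flip hD]
    exact (integrableOn_congr_fun hcong measurableSet_Ioi).mpr hint2
  have hint1' : IntegrableOn H (Ici (1 / (D : ℝ))) :=
    (integrableOn_Ici_iff_integrableOn_Ioi (by finiteness)).mpr hint1
  have hun : Ioi (0 : ℝ) = Ioo 0 (1 / (D : ℝ)) ∪ Ici (1 / (D : ℝ)) :=
    (Ioo_union_Ici_eq_Ioi hD1).symm
  refine ⟨by rw [hun]; exact hint3.union hint1', ?_⟩
  rw [hun, setIntegral_union ?_ measurableSet_Ici hint3 hint1', integral_flip hD H,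
    setIntegral_congr_fun measurableSet_Ioi hcong, integral_const_mul,
    integral_Ici_eq_integral_Ioi]
  · ring
  · rw [Set.disjoint_left]
    intro a ha hb
    exact absurd (mem_Ici.mp hb) (not_le.mpr ha.2)

/-- Existence of the test forms `Δ^r E_k`. -/
lemma exists_testForm {k : ℕ} (hk : 3 ≤ k) (r : ℕ) :
    ∃ f : CuspForm 𝒮ℒ ((12 * (r + 1) + k : ℕ) : ℤ),
      ∀ z, f z = ModularForm.discriminant z ^ (r + 1) * E hk z := by
  induction r with
  | zero =>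
    refine ⟨CuspForm.ofMulDiscriminant (ModularForm.mcast (by push_cast; ring) (E hk)), fun z ↦ ?_⟩
    simp
  | succ r ih =>
    obtain ⟨f, hf⟩ := ih
    refine ⟨CuspForm.ofMulDiscriminant (ModularForm.mcast (by push_cast; ring)
      (CuspForm.toModularFormₗ f)), fun z ↦ ?_⟩
    rw [CuspForm.ofMulDiscriminant_apply, pow_succ']
    have : (ModularForm.mcast (by push_cast; ring) (CuspForm.toModularFormₗ f) :
      ModularForm 𝒮ℒ (((12 * (r + 1 + 1) + k : ℕ) : ℤ) - 12)) z = f z := rfl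
    rw [this, hf, mul_assoc]

end Pool.Agent.Lib.MP_b06a2d_nt
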