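import Pool.Agent.Lib.MP_b06a2d_nt.Delta
import Pool.Agent.Lib.MP_b06a2d_nt.Eis
import Pool.Agent.Lib.MP_b06a2d_nt.Line

set_option autoImplicit false
set_option linter.unusedSimpArgs false

namespace Pool.Agent.Lib.MP_b06a2d_nt

open UpperHalfPlane hiding I
open Complex ModularForm Filter Topology MeasureTheory Set EisensteinSeries

open scoped Real MatrixGroups

lemma normSq_line (x y : ℝ) (hy : 0 < y) (c d : ℤ) :
    ‖(c : ℂ) * ((ofComplex ((x : ℂ) + y * I) : ℍ) : ℂ) + d‖ ^ 2 = (c * x + d) ^ 2 + (c * y) ^ 2 := by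
  rw [coe_ofComplex_line hy, ← Complex.normSq_eq_norm_sq, Complex.normSq_apply]
  simp
  ring

lemma one_le_sq_of_ne_zero {c : ℤ} (hc : c ≠ 0) : (1 : ℝ) ≤ (c : ℝ) ^ 2 := by
  have : 1 ≤ c ^ 2 := by
    have := sq_nonneg c
    have : c ^ 2 ≠ 0 := pow_ne_zero 2 hc
    omega
  exact_mod_cast this

/-- Lower bound for `|cz+d|^2` near the real axis. -/
lemma mu_low {D : ℕ} (hD : 0 < D) {v v' b : ℤ} (hv : v * v' + 1 = b * D) {y : ℝ}
    (hy : 1 / (D : ℝ) ≤ y) {c d : ℤ} (hc : c ≠ 0) :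
    y / D ≤ (c * (v / D : ℝ) + d) ^ 2 + (c * y) ^ 2 := by
  have hD' : (1 : ℝ) ≤ D := by exact_mod_cast hD
  have hD0 : (0 : ℝ) < D := by linarith
  have hy0 : 0 < y := lt_of_lt_of_le (by positivity) hy
  have hDy : 1 ≤ D * y := by
    rw [div_le_iff₀ hD0] at hy
    linarith
  have hc1 := one_le_sq_of_ne_zero hc
  rw [div_le_iff₀ hD0]
  by_cases hX : c * v + d * D = 0
  · -- then D ∣ c
    have hcop : IsCoprime (D : ℤ) v := ⟨b, -v', by linear_combination (-1 : ℤ) * hv⟩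
    have hdvd : (D : ℤ) ∣ c := by
      have : (D : ℤ) ∣ c * v := ⟨-d, by linear_combination hX⟩
      exact hcop.dvd_of_dvd_mul_right this
    obtain ⟨e, rfl⟩ := hdvd
    have he : e ≠ 0 := by rintro rfl; simp at hc
    have he1 := one_le_sq_of_ne_zero he
    have h2 : y ≤ ((((D : ℤ) * e : ℤ) : ℝ) * y) ^ 2 * D := by
      push_cast
      have h3 : y ≤ (D * y) * y * D := by nlinarith [mul_pos hy0 hD0, mul_pos hD0 hy0]
      have h4 : (D * y) * y * D ≤ ((D : ℝ) * e * y) ^ 2 * D := by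
        have h5 : (D * y) * y ≤ ((D : ℝ) * e * y) ^ 2 := by
          have : ((D : ℝ) * e * y) ^ 2 = D ^ 2 * y ^ 2 * e ^ 2 := by ring
          rw [this]
          have h6 : (D : ℝ) * y * y ≤ D ^ 2 * y ^ 2 := by
            have : (D : ℝ) ^ 2 * y ^ 2 = D * (D * y * y) := by ring
            rw [this]
            nlinarith [mul_pos (mul_pos hD0 hy0) hy0]
          have h7 : (0 : ℝ) < D ^ 2 * y ^ 2 := by positivity
          nlinarith
        nlinarith
      linarith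
    nlinarith [sq_nonneg ((((D : ℤ) * e : ℤ) : ℝ) * (v / D : ℝ) + d)]
  · have h1 := one_le_sq_of_ne_zero hX
    push_cast at h1
    have h2 : ((c : ℝ) * (v / D) + d) ^ 2 * D ^ 2 = ((c : ℝ) * v + d * D) ^ 2 := by
      field_simp
    have h3 : y ^ 2 ≤ ((c : ℝ) * y) ^ 2 := by
      have : ((c : ℝ) * y) ^ 2 = c ^ 2 * y ^ 2 := by ring
      rw [this]; nlinarith [sq_nonneg y]
    -- (x^2 + c²y²) D ≥ (1/D² + y²) D ≥ y
    have h4 : 1 ≤ ((c : ℝ) * (v / D) + d) ^ 2 * D ^ 2 := by rw [h2]; exact h1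
    have h5 : 1 / (D : ℝ) ^ 2 ≤ ((c : ℝ) * (v / D) + d) ^ 2 := by
      rw [div_le_iff₀ (by positivity)]; exact h4
    have h6 : y ≤ (1 / (D : ℝ) ^ 2 + y ^ 2) * D := by
      have : (1 / (D : ℝ) ^ 2 + y ^ 2) * D - y = ((1 - D * y) ^ 2 + D * y) / D := by
        field_simp
        ring
      have h7 : 0 ≤ ((1 - D * y) ^ 2 + D * y) / D := by positivity
      linarith
    calc y ≤ (1 / (D : ℝ) ^ 2 + y ^ 2) * D := h6
      _ ≤ _ := by gcongr

section pointwise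

variable {D r j k : ℕ} {v v' b : ℤ} {y : ℝ}

/-- The value of `Δ^r E_k` on the line. -/
noncomputable def testVal (r : ℕ) {k : ℕ} (hk : 3 ≤ k) (x y : ℝ) : ℂ :=
  onLine (fun z ↦ ModularForm.discriminant z ^ r * E hk z) x y

lemma norm_onLine_disc_pow_crude (hD : 0 < D) (hr : r ≤ D) (hy : 1 / (D : ℝ) ≤ y) (x : ℝ) :
    ‖onLine (fun z ↦ ModularForm.discriminant z ^ r) x y‖ ≤ Real.exp (4 * (D : ℝ) ^ 2) := by
  have hD0 : (0 : ℝ) < D := by exact_mod_cast hD
  have hy0 : 0 < y := lt_of_lt_of_le (by positivity) hy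
  have h := norm_discriminant_pow_le_crude (ofComplex ((x : ℂ) + y * I)) r D hD hr
    (by rw [im_ofComplex_line hy0]; exact hy)
  refine h.trans ?_
  rw [im_ofComplex_line hy0]
  have := (qabs_lt_one hy0).le
  have h2 : qabs y ^ r ≤ 1 := pow_le_one₀ (qabs_pos y).le this
  have := Real.exp_pos (4 * (D : ℝ) ^ 2)
  nlinarith

lemma norm_onLine_E_sub_one_low (hD : 0 < D) (hk : 3 ≤ k) (hkj : k = 2 * j + 4)
    (hv : v * v' + 1 = b * D) (hvD : |(v / D : ℝ)| ≤ 1) (hy : 1 / (D : ℝ) ≤ y) :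
    ‖onLine (E hk) (v / D) y - 1‖ ≤ 200 * (D : ℝ) ^ 4 * (D / y) ^ j := by
  have hD0 : (0 : ℝ) < D := by exact_mod_cast hD
  have hy0 : 0 < y := lt_of_lt_of_le (by positivity) hy
  have h := norm_E_sub_one_le hk hkj (ofComplex (((v / D : ℝ) : ℂ) + y * I)) hD
    (by rw [re_ofComplex_line hy0]; exact hvD) (by rw [im_ofComplex_line hy0]; exact hy)
    (μ := y / D) (by positivity) (fun c d hc _ ↦ by
      rw [normSq_line _ _ hy0]
      exact mu_low hD hv hy hc)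
  rw [inv_div] at h
  exact h

lemma norm_onLine_E_sub_one_high (hD : 0 < D) (hk : 3 ≤ k) (hkj : k = 2 * j + 4)
    (hvD : |(v / D : ℝ)| ≤ 1) (hy : 1 ≤ y) :
    ‖onLine (E hk) (v / D) y - 1‖ ≤ 200 * (D : ℝ) ^ 4 * ((y ^ 2)⁻¹) ^ j := by
  have hD0 : (1 : ℝ) ≤ D := by exact_mod_cast hD
  have hy0 : 0 < y := by linarith
  have hyD : 1 / (D : ℝ) ≤ y := by
    rw [div_le_iff₀ (by linarith)]
    nlinarith
  exact norm_E_sub_one_le hk hkj (ofComplex (((v / D : ℝ) : ℂ) + y * I)) hD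
    (by rw [re_ofComplex_line hy0]; exact hvD) (by rw [im_ofComplex_line hy0]; exact hyD)
    (μ := y ^ 2) (by positivity) (fun c d hc _ ↦ by
      rw [normSq_line _ _ hy0]
      have := one_le_sq_of_ne_zero hc
      have h2 : ((c : ℝ) * y) ^ 2 = c ^ 2 * y ^ 2 := by ring
      nlinarith [sq_nonneg ((c : ℝ) * (v / D) + d), sq_nonneg y])

/-- Crude bound for `y` between `1/D` and `D`. -/
lemma norm_testVal_low (hD : 0 < D) (hr : r ≤ D) (hk : 3 ≤ k) (hkj : k = 2 * j + 4)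
    (hv : v * v' + 1 = b * D) (hvD : |(v / D : ℝ)| ≤ 1) (hy : 1 / (D : ℝ) ≤ y) (hyD : y ≤ D) :
    ‖testVal r hk (v / D) y‖ ≤ 201 * Real.exp (4 * (D : ℝ) ^ 2) * (D : ℝ) ^ 4 * (D / y) ^ j := by
  have hD0 : (1 : ℝ) ≤ D := by exact_mod_cast hD
  have hy0 : 0 < y := lt_of_lt_of_le (by positivity) hy
  have h1 := norm_onLine_disc_pow_crude (r := r) hD hr hy (v / D)
  have h2 := norm_onLine_E_sub_one_low hD hk hkj hv hvD hy
  have h3 : (1 : ℝ) ≤ (D : ℝ) ^ 4 * (D / y) ^ j := by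
    have ha : (1 : ℝ) ≤ (D : ℝ) ^ 4 := one_le_pow₀ hD0
    have hb : (1 : ℝ) ≤ (D / y) ^ j := one_le_pow₀ (by rw [le_div_iff₀ hy0]; linarith)
    nlinarith
  have h4 : ‖onLine (E hk) (v / D) y‖ ≤ 201 * (D : ℝ) ^ 4 * (D / y) ^ j := by
    calc ‖onLine (E hk) (v / D) y‖ = ‖(onLine (E hk) (v / D) y - 1) + 1‖ := by ring_nf
      _ ≤ ‖onLine (E hk) (v / D) y - 1‖ + 1 := by simpa using norm_add_le (onLine (E hk) (v / D) y - 1) 1
      _ ≤ 200 * (D : ℝ) ^ 4 * (D / y) ^ j + (D : ℝ) ^ 4 * (D / y) ^ j := by gcongr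
      _ = _ := by ring
  have h5 : testVal r hk (v / D) y = onLine (fun z ↦ ModularForm.discriminant z ^ r) (v / D) y *
      onLine (E hk) (v / D) y := rfl
  rw [h5, norm_mul]
  calc _ ≤ Real.exp (4 * (D : ℝ) ^ 2) * (201 * (D : ℝ) ^ 4 * (D / y) ^ j) := by
        gcongr
    _ = _ := by ring

/-- `q^r` on the line. -/
noncomputable def qpow (r : ℕ) (x y : ℝ) : ℂ :=
  onLine (fun z ↦ Function.Periodic.qParam 1 (z : ℂ) ^ r) x y

lemma norm_qpow (hy : 0 < y) (x : ℝ) : ‖qpow r x y‖ = qabs y ^ r := by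
  unfold qpow onLine
  rw [norm_pow, norm_qParam_one, im_ofComplex_line hy]

lemma exp_small (hD : 0 < D) (hr : r ≤ D) (hy : (D : ℝ) ≤ y) :
    24 * r * qsum y ≤ 48 * D * qabs y ∧ 48 * D * qabs y ≤ 1 / 2 := by
  have hD0 : (1 : ℝ) ≤ D := by exact_mod_cast hD
  have hy1 : 1 ≤ y := by linarith
  have hr' : (r : ℝ) ≤ D := by exact_mod_cast hr
  have h1 := qsum_le_two_mul hy1
  have h2 := qabs_pos y
  have h3 := qsum_nonneg (y := y) (by linarith)
  constructor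
  · nlinarith [mul_le_mul hr' h1 h3 (by linarith : (0 : ℝ) ≤ D)]
  · -- qabs y ≤ exp (-2 π D) ≤ 1 / (96 D)
    have hpi := Real.pi_gt_three
    have h4 : qabs y ≤ Real.exp (-6 * D) := by
      apply Real.exp_le_exp.mpr
      nlinarith
    have h5 : 96 * (D : ℝ) ≤ Real.exp (6 * D) := by
      have h6 : (6 : ℝ) * D = 5 * 1 + (6 * D - 5) := by ring
      have h7 : 6 * (D : ℝ) - 5 + 1 ≤ Real.exp (6 * D - 5) := Real.add_one_le_exp _
      have h8 : (96 : ℝ) ≤ Real.exp 5 := by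
        have h9 : Real.exp 5 = (Real.exp 1) ^ 5 := by rw [← Real.exp_nat_mul]; norm_num
        rw [h9]
        have h10 := Real.exp_one_gt_d9
        calc (96 : ℝ) ≤ 2.7 ^ 5 := by norm_num
          _ ≤ _ := by gcongr; linarith
      calc 96 * (D : ℝ) ≤ Real.exp 5 * Real.exp (6 * D - 5) := by
            apply mul_le_mul h8 (by linarith) (by linarith) (Real.exp_pos _).le
        _ = Real.exp (6 * D) := by rw [← Real.exp_add]; ring_nf
    have h6 : Real.exp (-6 * D) * Real.exp (6 * D) = 1 := by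
      rw [← Real.exp_add]; simp
    have h7 := Real.exp_pos (-6 * (D : ℝ))
    nlinarith

lemma exp_sub_one_le {x : ℝ} (h0 : 0 ≤ x) (h1 : x ≤ 1 / 2) : Real.exp x - 1 ≤ 2 * x := by
  have h := Real.abs_exp_sub_one_le (x := x) (by rw [abs_of_nonneg h0]; linarith)
  rw [abs_of_nonneg h0] at h
  exact (le_abs_self _).trans h

lemma norm_testVal_sub_high (hD : 0 < D) (hr : r ≤ D) (hk : 3 ≤ k) (hkj : k = 2 * j + 4)
    (hvD : |(v / D : ℝ)| ≤ 1) (hyD : (D : ℝ) ≤ y) :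
    ‖testVal r hk (v / D) y - qpow r (v / D) y‖ ≤
      96 * D * qabs y ^ (r + 1) + 400 * (D : ℝ) ^ 4 * (qabs y ^ r * ((y ^ 2)⁻¹) ^ j) := by
  have hD0 : (1 : ℝ) ≤ D := by exact_mod_cast hD
  have hy1 : 1 ≤ y := by linarith
  have hy0 : 0 < y := by linarith
  have hq := qabs_pos y
  obtain ⟨hs1, hs2⟩ := exp_small (r := r) hD hr hyD
  have h1 : ‖onLine (fun z ↦ ModularForm.discriminant z ^ r) (v / D) y - qpow r (v / D) y‖ ≤
      qabs y ^ r * (96 * D * qabs y) := by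
    have h := norm_discriminant_pow_sub_le (ofComplex (((v / D : ℝ) : ℂ) + y * I)) r
    rw [im_ofComplex_line hy0] at h
    refine h.trans ?_
    gcongr
    have h0 : 0 ≤ 24 * (r : ℝ) * qsum y := by
      have := qsum_nonneg hy0
      positivity
    have := exp_sub_one_le h0 (hs1.trans hs2)
    linarith
  have h2 : ‖onLine (fun z ↦ ModularForm.discriminant z ^ r) (v / D) y‖ ≤ 2 * qabs y ^ r := by
    have h := norm_discriminant_pow_le (ofComplex (((v / D : ℝ) : ℂ) + y * I)) r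
    rw [im_ofComplex_line hy0] at h
    refine h.trans ?_
    have h0 : 0 ≤ 24 * (r : ℝ) * qsum y := by
      have := qsum_nonneg hy0
      positivity
    have h3 := exp_sub_one_le h0 (hs1.trans hs2)
    have h4 : Real.exp (24 * r * qsum y) ≤ 2 := by linarith [hs1.trans hs2]
    have h5 : 0 < qabs y ^ r := by positivity
    nlinarith
  have h3 := norm_onLine_E_sub_one_high (y := y) hD hk hkj hvD hy1
  have h5 : testVal r hk (v / D) y - qpow r (v / D) y =
      (onLine (fun z ↦ ModularForm.discriminant z ^ r) (v / D) y - qpow r (v / D) y) +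
      onLine (fun z ↦ ModularForm.discriminant z ^ r) (v / D) y * (onLine (E hk) (v / D) y - 1) := by
    have : testVal r hk (v / D) y = onLine (fun z ↦ ModularForm.discriminant z ^ r) (v / D) y *
      onLine (E hk) (v / D) y := rfl
    rw [this]; ring
  rw [h5]
  refine (norm_add_le _ _).trans ?_
  rw [norm_mul]
  calc _ ≤ qabs y ^ r * (96 * D * qabs y) + (2 * qabs y ^ r) *
        (200 * (D : ℝ) ^ 4 * ((y ^ 2)⁻¹) ^ j) := by gcongr
    _ = _ := by ring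

lemma norm_testVal_high (hD : 0 < D) (hr : r ≤ D) (hk : 3 ≤ k) (hkj : k = 2 * j + 4)
    (hvD : |(v / D : ℝ)| ≤ 1) (hyD : (D : ℝ) ≤ y) :
    ‖testVal r hk (v / D) y‖ ≤
      2 * qabs y ^ r + 400 * (D : ℝ) ^ 4 * (qabs y ^ r * ((y ^ 2)⁻¹) ^ j) := by
  have h := norm_testVal_sub_high (r := r) hD hr hk hkj hvD hyD
  have hD0 : (1 : ℝ) ≤ D := by exact_mod_cast hD
  have hy0 : 0 < y := by linarith
  have h1 := norm_qpow (r := r) hy0 (v / D)
  obtain ⟨hs1, hs2⟩ := exp_small (r := r) hD hr hyD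
  have hq := qabs_pos y
  have h2 : 96 * (D : ℝ) * qabs y ^ (r + 1) ≤ qabs y ^ r := by
    rw [pow_succ]
    have h5 : 0 < qabs y ^ r := by positivity
    nlinarith
  calc ‖testVal r hk (v / D) y‖ = ‖(testVal r hk (v / D) y - qpow r (v / D) y) +
        qpow r (v / D) y‖ := by ring_nf
    _ ≤ ‖testVal r hk (v / D) y - qpow r (v / D) y‖ + ‖qpow r (v / D) y‖ := norm_add_le _ _
    _ ≤ _ := by rw [h1]; linarith

end pointwise

end Pool.Agent.Lib.MP_b06a2d_nt
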