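import Mathlib

set_option autoImplicit false

namespace Pool.Agent.Lib.MP_b06a2d_nt

open UpperHalfPlane hiding I
open Complex ModularForm Filter Topology

open scoped Real

/-- `e^{-2π y}` -/
noncomputable def qabs (y : ℝ) : ℝ := Real.exp (-2 * π * y)

lemma qabs_pos (y : ℝ) : 0 < qabs y := Real.exp_pos _

lemma norm_qParam_one (z : ℍ) : ‖Function.Periodic.qParam 1 (z : ℂ)‖ = qabs z.im := by
  simp [Function.Periodic.qParam, Complex.norm_exp, qabs]

lemma qabs_lt_one {y : ℝ} (hy : 0 < y) : qabs y < 1 := by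
  rw [qabs, Real.exp_lt_one_iff]
  have := Real.pi_pos
  nlinarith [mul_pos this hy]

/-- `Σ_{n≥1} e^{-2π n y}` -/
noncomputable def qsum (y : ℝ) : ℝ := ∑' n : ℕ, qabs y ^ (n + 1)

lemma qsum_eq {y : ℝ} (hy : 0 < y) : qsum y = qabs y / (1 - qabs y) := by
  have := qabs_lt_one hy
  rw [qsum]
  simp_rw [pow_succ']
  rw [tsum_mul_left, tsum_geometric_of_lt_one (qabs_pos y).le this, div_eq_mul_inv]

lemma qsum_nonneg {y : ℝ} (hy : 0 < y) : 0 ≤ qsum y := by
  rw [qsum_eq hy]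
  have := qabs_lt_one hy
  exact div_nonneg (qabs_pos y).le (by linarith)

lemma qsum_le_inv {y : ℝ} (hy : 0 < y) : qsum y ≤ 1 / (2 * π * y) := by
  have h1 := qabs_lt_one hy
  have hpi := Real.pi_pos
  have hpos : 0 < 2 * π * y := by positivity
  rw [qsum_eq hy, div_le_div_iff₀ (by linarith) hpos]
  -- q * a ≤ 1 - q, a = 2 π y, q = exp (-a)
  have h2 : 2 * π * y + 1 ≤ Real.exp (2 * π * y) := Real.add_one_le_exp _
  have h3 : qabs y * Real.exp (2 * π * y) = 1 := by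
    rw [qabs, ← Real.exp_add]; simp
  nlinarith [qabs_pos y]

lemma qsum_le_two_mul {y : ℝ} (hy : 1 ≤ y) : qsum y ≤ 2 * qabs y := by
  have hy0 : 0 < y := by linarith
  have h1 := qabs_lt_one hy0
  rw [qsum_eq hy0, div_le_iff₀ (by linarith)]
  have h2 : 2 * π * y + 1 ≤ Real.exp (2 * π * y) := Real.add_one_le_exp _
  have h3 : qabs y * Real.exp (2 * π * y) = 1 := by
    rw [qabs, ← Real.exp_add]; simp
  have hpi := Real.pi_gt_three
  have h4 : 6 ≤ 2 * π * y := by nlinarith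
  have h5 : qabs y ≤ 1 / 2 := by nlinarith [qabs_pos y]
  nlinarith [qabs_pos y]

lemma norm_tprod_sub_one_le (z : ℍ) :
    ‖(∏' n, (1 - eta_q n z)) - 1‖ ≤ Real.exp (qsum z.im) - 1 := by
  have hsum : Summable fun n : ℕ ↦ ‖-eta_q n z‖ := summable_eta_q z
  have hnorm : ∀ n : ℕ, ‖-eta_q n (z : ℂ)‖ = qabs z.im ^ (n + 1) := by
    intro n
    rw [norm_neg, eta_q, norm_pow, norm_qParam_one]
  have hmul : HasProd (fun n : ℕ ↦ (1 + -eta_q n (z : ℂ))) (∏' n, (1 + -eta_q n (z : ℂ))) :=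
    (multipliable_one_add_of_summable hsum).hasProd
  have hT : Tendsto (fun t : Finset ℕ ↦ ‖∏ i ∈ t, (1 + -eta_q i (z : ℂ)) - 1‖) atTop
      (𝓝 ‖(∏' n, (1 + -eta_q n (z : ℂ))) - 1‖) :=
    (hmul.sub_const 1).norm
  have : ‖(∏' n, (1 + -eta_q n (z : ℂ))) - 1‖ ≤ Real.exp (qsum z.im) - 1 := by
    refine le_of_tendsto hT (Eventually.of_forall fun t ↦ ?_)
    refine (t.norm_prod_one_add_sub_one_le _).trans ?_
    have : ∑ i ∈ t, ‖-eta_q i (z : ℂ)‖ ≤ qsum z.im := by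
      rw [qsum]
      simp_rw [← hnorm]
      exact hsum.sum_le_tsum t (fun _ _ ↦ norm_nonneg _)
    gcongr
  simpa [sub_eq_add_neg] using this

lemma norm_pow_sub_one_le {w : ℂ} {a : ℝ} (h : ‖w - 1‖ ≤ Real.exp a - 1) (m : ℕ) :
    ‖w ^ m - 1‖ ≤ Real.exp (m * a) - 1 := by
  induction m with
  | zero => simp
  | succ m ih =>
    have h1 : w ^ (m + 1) - 1 = (w ^ m - 1) * w + (w - 1) := by ring
    have h2 : ‖w‖ ≤ Real.exp a := by
      calc ‖w‖ = ‖(w - 1) + 1‖ := by ring_nf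
        _ ≤ ‖w - 1‖ + 1 := by simpa using norm_add_le (w - 1) 1
        _ ≤ Real.exp a := by linarith
    have h3 : (0 : ℝ) ≤ Real.exp (m * a) - 1 := le_trans (norm_nonneg _) ih
    calc ‖w ^ (m + 1) - 1‖ ≤ ‖w ^ m - 1‖ * ‖w‖ + ‖w - 1‖ := by
          rw [h1]; exact (norm_add_le _ _).trans (by rw [norm_mul])
      _ ≤ (Real.exp (m * a) - 1) * Real.exp a + (Real.exp a - 1) := by
          gcongr
      _ = Real.exp (((m + 1 : ℕ) : ℝ) * a) - 1 := by
          have : ((m + 1 : ℕ) : ℝ) * a = m * a + a := by push_cast; ring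
          rw [this, Real.exp_add]; ring

lemma discriminant_pow_eq (z : ℍ) (r : ℕ) :
    ModularForm.discriminant z ^ r =
      Function.Periodic.qParam 1 (z : ℂ) ^ r * (∏' n, (1 - eta_q n (z : ℂ))) ^ (24 * r) := by
  rw [discriminant_eq_q_prod, mul_pow, (multipliableLocallyUniformlyOn_eta.multipliable z.2).tprod_pow,
    ← pow_mul]

/-- `|Δ^r - q^r| ≤ |q|^r (exp(24 r Σ|q|^n) - 1)`. -/
lemma norm_discriminant_pow_sub_le (z : ℍ) (r : ℕ) :
    ‖ModularForm.discriminant z ^ r - Function.Periodic.qParam 1 (z : ℂ) ^ r‖ ≤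
      qabs z.im ^ r * (Real.exp (24 * r * qsum z.im) - 1) := by
  rw [discriminant_pow_eq]
  have h1 : Function.Periodic.qParam 1 (z : ℂ) ^ r * (∏' n, (1 - eta_q n (z : ℂ))) ^ (24 * r) -
      Function.Periodic.qParam 1 (z : ℂ) ^ r =
      Function.Periodic.qParam 1 (z : ℂ) ^ r * ((∏' n, (1 - eta_q n (z : ℂ))) ^ (24 * r) - 1) := by
    ring
  rw [h1, norm_mul, norm_pow, norm_qParam_one]
  have h2 := norm_pow_sub_one_le (norm_tprod_sub_one_le z) (24 * r)
  have h3 : (((24 * r : ℕ)) : ℝ) * qsum z.im = 24 * r * qsum z.im := by push_cast; ring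
  rw [h3] at h2
  have := qabs_pos z.im
  gcongr

lemma norm_discriminant_pow_le (z : ℍ) (r : ℕ) :
    ‖ModularForm.discriminant z ^ r‖ ≤ qabs z.im ^ r * Real.exp (24 * r * qsum z.im) := by
  have h := norm_discriminant_pow_sub_le z r
  have h1 : ‖Function.Periodic.qParam 1 (z : ℂ) ^ r‖ = qabs z.im ^ r := by
    rw [norm_pow, norm_qParam_one]
  calc ‖ModularForm.discriminant z ^ r‖
      = ‖(ModularForm.discriminant z ^ r - Function.Periodic.qParam 1 (z : ℂ) ^ r)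
          + Function.Periodic.qParam 1 (z : ℂ) ^ r‖ := by ring_nf
    _ ≤ ‖ModularForm.discriminant z ^ r - Function.Periodic.qParam 1 (z : ℂ) ^ r‖
          + ‖Function.Periodic.qParam 1 (z : ℂ) ^ r‖ := norm_add_le _ _
    _ ≤ qabs z.im ^ r * (Real.exp (24 * r * qsum z.im) - 1) + qabs z.im ^ r := by
        rw [h1]; gcongr
    _ = _ := by ring

/-- Crude bound of `Δ^r` for `y ≥ 1/D`, `r ≤ D`. -/
lemma norm_discriminant_pow_le_crude (z : ℍ) (r D : ℕ) (hD : 0 < D) (hr : r ≤ D)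
    (hz : 1 / (D : ℝ) ≤ z.im) :
    ‖ModularForm.discriminant z ^ r‖ ≤ Real.exp (4 * (D : ℝ) ^ 2) * qabs z.im ^ r := by
  refine (norm_discriminant_pow_le z r).trans ?_
  rw [mul_comm]
  have hq := qabs_pos z.im
  have hD' : (0 : ℝ) < D := by exact_mod_cast hD
  have hr' : (r : ℝ) ≤ D := by exact_mod_cast hr
  have hzpos := z.im_pos
  have h1 : qsum z.im ≤ D / (2 * π) := by
    refine (qsum_le_inv hzpos).trans ?_
    have hpi := Real.pi_pos
    rw [div_le_div_iff₀ (by positivity) (by positivity)]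
    have : 1 ≤ D * z.im := by
      rw [div_le_iff₀ hD'] at hz
      linarith
    nlinarith
  have h2 : 24 * r * qsum z.im ≤ 4 * (D : ℝ) ^ 2 := by
    have hpi := Real.pi_gt_three
    have h3 : (D : ℝ) / (2 * π) ≤ D / 6 := by
      gcongr
      linarith
    have h4 : qsum z.im ≤ D / 6 := h1.trans h3
    have h5 := qsum_nonneg hzpos
    have : (r : ℝ) * qsum z.im ≤ D * (D / 6) := by
      apply mul_le_mul hr' h4 h5 hD'.le
    nlinarith
  gcongr

end Pool.Agent.Lib.MP_b06a2d_nt
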