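import Pool.Agent.Lib.MP_b06a2d_nt.Bounds

set_option autoImplicit false
set_option linter.unusedSimpArgs false

namespace Pool.Agent.Lib.MP_b06a2d_nt

open UpperHalfPlane hiding I
open Complex ModularForm Filter Topology MeasureTheory Set EisensteinSeries

open scoped Real MatrixGroups

lemma gamma_integral (m : ℕ) {p : ℕ} (hp : 0 < p) :
    IntegrableOn (fun y : ℝ ↦ y ^ m * qabs y ^ p) (Ioi 0) ∧
    ∫ y in Ioi (0 : ℝ), y ^ m * qabs y ^ p = (m.factorial : ℝ) / (2 * π * p) ^ (m + 1) := by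
  have hp' : (0 : ℝ) < p := by exact_mod_cast hp
  have hpi := Real.pi_pos
  have hr : 0 < 2 * π * (p : ℝ) := by positivity
  have hcong : ∀ y ∈ Ioi (0 : ℝ), y ^ ((m : ℝ) + 1 - 1) * Real.exp (-((2 * π * p) * y)) =
      y ^ m * qabs y ^ p := by
    intro y _
    rw [add_sub_cancel_right, Real.rpow_natCast, qabs, ← Real.exp_nat_mul]
    congr 2
    ring
  constructor
  · have h := integrableOn_rpow_mul_exp_neg_mul_rpow (p := 1) (s := (m : ℝ)) (b := 2 * π * p)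
      (by have : (0 : ℝ) ≤ m := by positivity
          linarith) one_pos hr
    refine (integrableOn_congr_fun (fun y hy ↦ ?_) measurableSet_Ioi).mp h
    rw [← hcong y hy]
    simp only [Real.rpow_one, add_sub_cancel_right]
    congr 2
    ring
  · rw [← setIntegral_congr_fun measurableSet_Ioi hcong,
      Real.integral_rpow_mul_exp_neg_mul_Ioi (by positivity) hr, Real.Gamma_nat_eq_factorial]
    rw [show (m : ℝ) + 1 = ((m + 1 : ℕ) : ℝ) by push_cast; ring, Real.rpow_natCast, one_div, inv_pow]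
    field_simp

lemma volume_real_Ioc_le {D : ℕ} (hD : 0 < D) :
    (volume : Measure ℝ).real (Ioc (1 / (D : ℝ)) D) ≤ D := by
  have hD' : (1 : ℝ) ≤ D := by exact_mod_cast hD
  rw [Measure.real, Real.volume_Ioc]
  rw [ENNReal.toReal_ofReal]
  · have : 0 < 1 / (D : ℝ) := by positivity
    linarith
  · have : 1 / (D : ℝ) ≤ 1 := by
      rw [div_le_one (by linarith)]; exact hD'
    linarith

section

variable {D r j k : ℕ} {v v' b : ℤ}

/-- Low part. -/
lemma low_part (hD : 0 < D) (hr : r ≤ D) (hk : 3 ≤ k) (hkj : k = 2 * j + 4)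
    (hv : v * v' + 1 = b * D) (hvD : |(v / D : ℝ)| ≤ 1) (m : ℕ) {C : ℝ}
    (hC : ∀ y : ℝ, 1 / (D : ℝ) ≤ y → y ≤ D → (D / y) ^ j * y ^ m ≤ C) :
    ‖∫ y in Ioc (1 / (D : ℝ)) D, testVal r hk (v / D) y * (y : ℂ) ^ m‖ ≤
      201 * Real.exp (4 * (D : ℝ) ^ 2) * (D : ℝ) ^ 5 * C := by
  have hD0 : (1 : ℝ) ≤ D := by exact_mod_cast hD
  have hC0 : 0 ≤ C := le_trans (by positivity) (hC D (by
    rw [div_le_iff₀ (by linarith)]; nlinarith) le_rfl)
  have h := norm_setIntegral_le_of_norm_le_const (μ := volume) (s := Ioc (1 / (D : ℝ)) D)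
    (f := fun y : ℝ ↦ testVal r hk (v / D) y * (y : ℂ) ^ m)
    (C := 201 * Real.exp (4 * (D : ℝ) ^ 2) * (D : ℝ) ^ 4 * C)
    (by rw [Real.volume_Ioc]; exact ENNReal.ofReal_lt_top) (fun y hy ↦ by
      have hy0 : 0 < y := lt_trans (by positivity) hy.1
      rw [norm_mul, norm_pow, Complex.norm_real, Real.norm_of_nonneg hy0.le]
      have h1 := norm_testVal_low (r := r) hD hr hk hkj hv hvD hy.1.le hy.2
      have h2 := hC y hy.1.le hy.2
      calc _ ≤ (201 * Real.exp (4 * (D : ℝ) ^ 2) * (D : ℝ) ^ 4 * (D / y) ^ j) * y ^ m := by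
            gcongr
        _ = 201 * Real.exp (4 * (D : ℝ) ^ 2) * (D : ℝ) ^ 4 * ((D / y) ^ j * y ^ m) := by ring
        _ ≤ _ := by gcongr)
  refine h.trans ?_
  calc _ ≤ 201 * Real.exp (4 * (D : ℝ) ^ 2) * (D : ℝ) ^ 4 * C * D := by
        gcongr
        exact volume_real_Ioc_le hD
    _ = _ := by ring

/-- Bound of the `y^{-2j}` part. -/
lemma high_aux (hr0 : 0 < r) (hD : 0 < D) {m : ℕ} (hm : m ≤ 2 * j + 12 * r) :
    IntegrableOn (fun y : ℝ ↦ qabs y ^ r * ((y ^ 2)⁻¹) ^ j * y ^ m) (Ioi (D : ℝ)) ∧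
    ∫ y in Ioi (D : ℝ), qabs y ^ r * ((y ^ 2)⁻¹) ^ j * y ^ m ≤
      ((12 * r).factorial : ℝ) / (2 * π * r) ^ (12 * r + 1) := by
  have hD0 : (1 : ℝ) ≤ D := by exact_mod_cast hD
  obtain ⟨hint, hval⟩ := gamma_integral (12 * r) hr0
  have hsub : Ioi (D : ℝ) ⊆ Ioi 0 := Ioi_subset_Ioi (by linarith)
  have hle : ∀ y ∈ Ioi (D : ℝ), qabs y ^ r * ((y ^ 2)⁻¹) ^ j * y ^ m ≤ y ^ (12 * r) * qabs y ^ r := by
    intro y hy
    have hy1 : 1 ≤ y := le_trans hD0 (le_of_lt hy)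
    have hq := qabs_pos y
    have h1 : ((y ^ 2)⁻¹) ^ j * y ^ m ≤ y ^ (12 * r) := by
      rw [inv_pow, ← pow_mul, inv_mul_le_iff₀ (by positivity), ← pow_add]
      exact pow_le_pow_right₀ hy1 hm
    calc qabs y ^ r * ((y ^ 2)⁻¹) ^ j * y ^ m = qabs y ^ r * (((y ^ 2)⁻¹) ^ j * y ^ m) := by ring
      _ ≤ qabs y ^ r * y ^ (12 * r) := by gcongr
      _ = _ := by ring
  have hmeas : ContinuousOn (fun y : ℝ ↦ qabs y ^ r * ((y ^ 2)⁻¹) ^ j * y ^ m) (Ioi (D : ℝ)) := by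
    unfold qabs
    refine ContinuousOn.mul (ContinuousOn.mul (by fun_prop) ?_) (by fun_prop)
    refine ContinuousOn.pow (ContinuousOn.inv₀ (by fun_prop) ?_) _
    intro y hy
    have hy1 : 1 ≤ y := le_trans hD0 (le_of_lt hy)
    positivity
  have hint2 : IntegrableOn (fun y : ℝ ↦ qabs y ^ r * ((y ^ 2)⁻¹) ^ j * y ^ m) (Ioi (D : ℝ)) := by
    refine Integrable.mono' (hint.mono_set hsub) (hmeas.aestronglyMeasurable measurableSet_Ioi) ?_
    filter_upwards [ae_restrict_mem measurableSet_Ioi] with y hy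
    have hy1 : 1 ≤ y := le_trans hD0 (le_of_lt hy)
    have hq := qabs_pos y
    rw [Real.norm_of_nonneg (by positivity)]
    exact hle y hy
  refine ⟨hint2, ?_⟩
  rw [← hval]
  refine (setIntegral_mono_on hint2 (hint.mono_set hsub) measurableSet_Ioi hle).trans ?_
  refine setIntegral_mono_set hint ?_ (Eventually.of_forall hsub)
  filter_upwards [ae_restrict_mem measurableSet_Ioi] with y hy
  have hy0 : 0 < y := hy
  have hq := qabs_pos y
  positivity

lemma gamma_integral_le (m : ℕ) {p : ℕ} (hp : 0 < p) (hD : 0 < D) :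
    ∫ y in Ioi (D : ℝ), y ^ m * qabs y ^ p ≤ (m.factorial : ℝ) / (2 * π * p) ^ (m + 1) := by
  have hD0 : (1 : ℝ) ≤ D := by exact_mod_cast hD
  obtain ⟨hint, hval⟩ := gamma_integral m hp
  rw [← hval]
  refine setIntegral_mono_set hint ?_ (Eventually.of_forall (Ioi_subset_Ioi (by linarith)))
  filter_upwards [ae_restrict_mem measurableSet_Ioi] with y hy
  have hy0 : 0 < y := hy
  have hq := qabs_pos y
  positivity

/-- High part, difference with the main term. -/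
lemma high_part_sub (hD : 0 < D) (hr0 : 0 < r) (hr : r ≤ D) (hk : 3 ≤ k) (hkj : k = 2 * j + 4)
    (hvD : |(v / D : ℝ)| ≤ 1) {m : ℕ} (hm : m ≤ 2 * j + 12 * r) :
    ‖∫ y in Ioi (D : ℝ), (testVal r hk (v / D) y - qpow r (v / D) y) * (y : ℂ) ^ m‖ ≤
      96 * D * ((m.factorial : ℝ) / (2 * π * (r + 1 : ℕ)) ^ (m + 1)) +
      400 * (D : ℝ) ^ 4 * (((12 * r).factorial : ℝ) / (2 * π * r) ^ (12 * r + 1)) := by
  have hD0 : (1 : ℝ) ≤ D := by exact_mod_cast hD
  obtain ⟨hint1, _⟩ := gamma_integral m (p := r + 1) (by omega)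
  obtain ⟨hint2, hval2⟩ := high_aux (j := j) hr0 hD hm
  have hsub : Ioi (D : ℝ) ⊆ Ioi 0 := Ioi_subset_Ioi (by linarith)
  have hg : IntegrableOn (fun y : ℝ ↦ 96 * D * (y ^ m * qabs y ^ (r + 1)) +
      400 * (D : ℝ) ^ 4 * (qabs y ^ r * ((y ^ 2)⁻¹) ^ j * y ^ m)) (Ioi (D : ℝ)) :=
    ((hint1.mono_set hsub).const_mul _).add (hint2.const_mul _)
  refine (norm_integral_le_of_norm_le hg ?_).trans ?_
  · filter_upwards [ae_restrict_mem measurableSet_Ioi] with y hy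
    have hy0 : 0 < y := lt_of_lt_of_le (by linarith) (le_of_lt hy)
    rw [norm_mul, norm_pow, Complex.norm_real, Real.norm_of_nonneg hy0.le]
    have h := norm_testVal_sub_high (r := r) hD hr hk hkj hvD (le_of_lt hy)
    calc _ ≤ (96 * D * qabs y ^ (r + 1) + 400 * (D : ℝ) ^ 4 * (qabs y ^ r * ((y ^ 2)⁻¹) ^ j)) *
          y ^ m := by gcongr
      _ = _ := by ring
  · rw [integral_add ((hint1.mono_set hsub).const_mul _) (hint2.const_mul _), integral_const_mul,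
      integral_const_mul]
    gcongr
    exact gamma_integral_le m (by omega) hD

/-- High part. -/
lemma high_part (hD : 0 < D) (hr0 : 0 < r) (hr : r ≤ D) (hk : 3 ≤ k) (hkj : k = 2 * j + 4)
    (hvD : |(v / D : ℝ)| ≤ 1) {m : ℕ} (hm : m ≤ 2 * j + 12 * r) :
    ‖∫ y in Ioi (D : ℝ), testVal r hk (v / D) y * (y : ℂ) ^ m‖ ≤
      2 * ((m.factorial : ℝ) / (2 * π * r) ^ (m + 1)) +
      400 * (D : ℝ) ^ 4 * (((12 * r).factorial : ℝ) / (2 * π * r) ^ (12 * r + 1)) := by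
  have hD0 : (1 : ℝ) ≤ D := by exact_mod_cast hD
  obtain ⟨hint1, _⟩ := gamma_integral m (p := r) hr0
  obtain ⟨hint2, hval2⟩ := high_aux (j := j) hr0 hD hm
  have hsub : Ioi (D : ℝ) ⊆ Ioi 0 := Ioi_subset_Ioi (by linarith)
  have hg : IntegrableOn (fun y : ℝ ↦ 2 * (y ^ m * qabs y ^ r) +
      400 * (D : ℝ) ^ 4 * (qabs y ^ r * ((y ^ 2)⁻¹) ^ j * y ^ m)) (Ioi (D : ℝ)) :=
    ((hint1.mono_set hsub).const_mul _).add (hint2.const_mul _)
  refine (norm_integral_le_of_norm_le hg ?_).trans ?_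
  · filter_upwards [ae_restrict_mem measurableSet_Ioi] with y hy
    have hy0 : 0 < y := lt_of_lt_of_le (by linarith) (le_of_lt hy)
    rw [norm_mul, norm_pow, Complex.norm_real, Real.norm_of_nonneg hy0.le]
    have h := norm_testVal_high (r := r) hD hr hk hkj hvD (le_of_lt hy)
    calc _ ≤ (2 * qabs y ^ r + 400 * (D : ℝ) ^ 4 * (qabs y ^ r * ((y ^ 2)⁻¹) ^ j)) *
          y ^ m := by gcongr
      _ = _ := by ring
  · rw [integral_add ((hint1.mono_set hsub).const_mul _) (hint2.const_mul _), integral_const_mul,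
      integral_const_mul]
    gcongr
    exact gamma_integral_le m (by omega) hD

/-- The main term. -/
lemma qpow_eq {y : ℝ} (hy : 0 < y) (x : ℝ) :
    qpow r x y = Complex.exp (2 * π * I * r * x) * ((qabs y ^ r : ℝ) : ℂ) := by
  unfold qpow onLine
  show Function.Periodic.qParam 1 ((ofComplex ((x : ℂ) + y * I) : ℍ) : ℂ) ^ r = _
  rw [coe_ofComplex_line hy, Function.Periodic.qParam, qabs, ← Complex.exp_nat_mul,
    ← Real.exp_nat_mul, Complex.ofReal_exp, ← Complex.exp_add]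
  congr 1
  push_cast
  have : I * I = -1 := I_mul_I
  field_simp
  linear_combination ((r : ℂ) * y) * this

lemma main_integral (hr0 : 0 < r) (x : ℝ) (m : ℕ) :
    IntegrableOn (fun y : ℝ ↦ qpow r x y * (y : ℂ) ^ m) (Ioi 0) ∧
    ∫ y in Ioi (0 : ℝ), qpow r x y * (y : ℂ) ^ m =
      Complex.exp (2 * π * I * r * x) * (((m.factorial : ℝ) / (2 * π * r) ^ (m + 1) : ℝ) : ℂ) := by
  obtain ⟨hint, hval⟩ := gamma_integral m hr0
  have hcong : ∀ y ∈ Ioi (0 : ℝ), qpow r x y * (y : ℂ) ^ m =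
      Complex.exp (2 * π * I * r * x) * ((y ^ m * qabs y ^ r : ℝ) : ℂ) := by
    intro y hy
    rw [qpow_eq hy]
    push_cast
    ring
  constructor
  · refine (integrableOn_congr_fun hcong measurableSet_Ioi).mpr ?_
    exact hint.ofReal.const_mul _
  · rw [setIntegral_congr_fun measurableSet_Ioi hcong, integral_const_mul]
    congr 1
    rw [← hval]
    exact integral_ofReal

lemma main_low (hD : 0 < D) (x : ℝ) (m : ℕ) :
    ‖∫ y in Ioc (0 : ℝ) D, qpow r x y * (y : ℂ) ^ m‖ ≤ (D : ℝ) ^ (m + 1) := by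
  have hD0 : (1 : ℝ) ≤ D := by exact_mod_cast hD
  have h := norm_setIntegral_le_of_norm_le_const (μ := volume) (s := Ioc (0 : ℝ) D)
    (f := fun y : ℝ ↦ qpow r x y * (y : ℂ) ^ m)
    (C := (D : ℝ) ^ m)
    (by rw [Real.volume_Ioc]; exact ENNReal.ofReal_lt_top) (fun y hy ↦ by
      have hy0 : 0 < y := hy.1
      rw [norm_mul, norm_pow, Complex.norm_real, Real.norm_of_nonneg hy0.le, norm_qpow hy0]
      have h1 : qabs y ^ r ≤ 1 := pow_le_one₀ (qabs_pos y).le (qabs_lt_one hy0).le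
      have h2 : y ^ m ≤ (D : ℝ) ^ m := pow_le_pow_left₀ hy0.le hy.2 m
      have h3 : 0 ≤ y ^ m := by positivity
      nlinarith [pow_pos (qabs_pos y) r])
  refine h.trans ?_
  rw [Measure.real, Real.volume_Ioc, sub_zero, ENNReal.toReal_ofReal (by linarith), pow_succ]

end

end Pool.Agent.Lib.MP_b06a2d_nt
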