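import Mathlib

set_option autoImplicit false

namespace Pool.Agent.Lib.MP_b06a2d_nt

open scoped Real

lemma two_pi_sq_le : (2 * π) ^ 2 ≤ 40 := by
  have := Real.pi_lt_d4
  have := Real.pi_pos
  nlinarith

lemma pow_self_le (S : ℕ) : (S : ℝ) ^ S ≤ (S.factorial : ℝ) * Real.exp S := by
  have h := Real.pow_div_factorial_le_exp (x := (S : ℝ)) (by positivity) S
  rw [div_le_iff₀ (by positivity)] at h
  linarith

lemma exp_two_le : Real.exp 2 ≤ 7.39 := by
  have h9 : Real.exp 2 = (Real.exp 1) ^ 2 := by rw [← Real.exp_nat_mul]; norm_num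
  rw [h9]
  have h10 := Real.exp_one_lt_d9
  have h11 := Real.exp_pos 1
  nlinarith

lemma fact_ge_one {D S : ℕ} (hS : 50 * D ^ 2 ≤ S) :
    (2 * π * (D : ℝ) ^ 2) ^ S * Real.exp (50 * (D : ℝ) ^ 2) ≤ (S.factorial : ℝ) := by
  have hS' : 50 * (D : ℝ) ^ 2 ≤ S := by exact_mod_cast hS
  have h1 : 2 * π * (D : ℝ) ^ 2 * Real.exp 2 ≤ S := by
    have := Real.pi_lt_d4
    have h2 := exp_two_le
    have h3 : 2 * π * Real.exp 2 ≤ 50 := by
      have := Real.pi_pos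
      have := Real.exp_pos 2
      nlinarith
    nlinarith [sq_nonneg (D : ℝ)]
  have h2 : (2 * π * (D : ℝ) ^ 2 * Real.exp 2) ^ S ≤ (S : ℝ) ^ S := by
    have := Real.pi_pos
    exact pow_le_pow_left₀ (by positivity) h1 S
  have h3 := pow_self_le S
  have h4 : (Real.exp 2) ^ S = Real.exp S * Real.exp S := by
    rw [← Real.exp_nat_mul, ← Real.exp_add]; ring_nf
  rw [mul_pow, h4, ← mul_assoc] at h2
  have h5 : (2 * π * (D : ℝ) ^ 2) ^ S * Real.exp S ≤ (S.factorial : ℝ) := by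
    have := Real.exp_pos (S : ℝ)
    exact le_of_mul_le_mul_right (h2.trans h3) this
  refine le_trans ?_ h5
  have := Real.pi_pos
  gcongr

lemma exp_two_fifths_le : Real.exp (2 / 5) ≤ 1.5 := by
  have h : Real.exp (2 / 5) ^ 5 = Real.exp 2 := by rw [← Real.exp_nat_mul]; norm_num
  have h2 := exp_two_le
  by_contra hcon
  push Not at hcon
  have : (1.5 : ℝ) ^ 5 < Real.exp (2 / 5) ^ 5 := by gcongr
  rw [h] at this
  norm_num at this
  linarith

lemma fact_ge_two {D S : ℕ} (hS : 50 * D ^ 2 ≤ S) :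
    (12 * (D : ℝ) ^ 2) ^ S * Real.exp (20 * (D : ℝ) ^ 2) ≤ (S.factorial : ℝ) := by
  have hS' : 50 * (D : ℝ) ^ 2 ≤ S := by exact_mod_cast hS
  have h1 : 12 * (D : ℝ) ^ 2 * (Real.exp (2 / 5) * Real.exp 1) ≤ S := by
    have h2 := exp_two_fifths_le
    have h3 := Real.exp_one_lt_d9
    have h4 : Real.exp (2 / 5) * Real.exp 1 ≤ 4.1 := by
      have := Real.exp_pos 1
      have := Real.exp_pos (2 / 5)
      nlinarith
    nlinarith [sq_nonneg (D : ℝ)]
  have h2 : (12 * (D : ℝ) ^ 2 * (Real.exp (2 / 5) * Real.exp 1)) ^ S ≤ (S : ℝ) ^ S :=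
    pow_le_pow_left₀ (by positivity) h1 S
  have h3 := pow_self_le S
  have h4 : (Real.exp (2 / 5) * Real.exp 1) ^ S = Real.exp (2 / 5 * S) * Real.exp S := by
    rw [mul_pow, ← Real.exp_nat_mul, ← Real.exp_nat_mul]; ring_nf
  rw [mul_pow, h4, ← mul_assoc] at h2
  have h5 : (12 * (D : ℝ) ^ 2) ^ S * Real.exp (2 / 5 * S) ≤ (S.factorial : ℝ) := by
    have := Real.exp_pos (S : ℝ)
    exact le_of_mul_le_mul_right (h2.trans h3) this
  refine le_trans ?_ h5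
  exact mul_le_mul_of_nonneg_left (Real.exp_le_exp.mpr (by linarith)) (by positivity)

lemma natCast_le_exp_sq {D : ℕ} (hD : 0 < D) : (D : ℝ) ≤ Real.exp ((D : ℝ) ^ 2) := by
  have hD0 : (1 : ℝ) ≤ D := by exact_mod_cast hD
  have h := Real.add_one_le_exp ((D : ℝ) ^ 2)
  nlinarith

lemma pow_natCast_le_exp_sq {D : ℕ} (hD : 0 < D) (m : ℕ) :
    (D : ℝ) ^ m ≤ Real.exp (m * (D : ℝ) ^ 2) := by
  have h := pow_le_pow_left₀ (by positivity) (natCast_le_exp_sq hD) m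
  rwa [← Real.exp_nat_mul] at h

lemma exp_ten_ge : (20000 : ℝ) ≤ Real.exp 10 := by
  have h9 : Real.exp 10 = (Real.exp 1) ^ 10 := by rw [← Real.exp_nat_mul]; norm_num
  rw [h9]
  have h10 := Real.exp_one_gt_d9
  calc (20000 : ℝ) ≤ 2.718 ^ 10 := by norm_num
    _ ≤ _ := by gcongr; linarith

/-- (i) -/
lemma numeric_i {D r S : ℕ} (hD : 0 < D) (hr : r ≤ D) (hS : 50 * D ^ 2 ≤ S) :
    403 * Real.exp (4 * (D : ℝ) ^ 2) * (D : ℝ) ^ (S + 5) * (4 * D) * (2 * π * r) ^ (S + 1) ≤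
      (S.factorial : ℝ) := by
  have hD0 : (1 : ℝ) ≤ D := by exact_mod_cast hD
  have hpi := Real.pi_pos
  have hr' : (r : ℝ) ≤ D := by exact_mod_cast hr
  have h1 : (2 * π * (r : ℝ)) ^ (S + 1) ≤ (2 * π * D) ^ (S + 1) := by gcongr
  refine le_trans ?_ (fact_ge_one hS)
  calc 403 * Real.exp (4 * (D : ℝ) ^ 2) * (D : ℝ) ^ (S + 5) * (4 * D) * (2 * π * r) ^ (S + 1)
      ≤ 403 * Real.exp (4 * (D : ℝ) ^ 2) * (D : ℝ) ^ (S + 5) * (4 * D) * (2 * π * D) ^ (S + 1) := by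
        gcongr
    _ = (2 * π * (D : ℝ) ^ 2) ^ S * (1612 * (2 * π) * (D : ℝ) ^ 7 * Real.exp (4 * (D : ℝ) ^ 2)) := by
        rw [show 2 * π * (D : ℝ) ^ 2 = (D : ℝ) * (2 * π * D) by ring, mul_pow]
        ring
    _ ≤ _ := by
        have h2 : 1612 * (2 * π) ≤ Real.exp (10 * (D : ℝ) ^ 2) := by
          have h3 := Real.pi_lt_d4
          have h4 := exp_ten_ge
          have h5 : Real.exp 10 ≤ Real.exp (10 * (D : ℝ) ^ 2) := by
            apply Real.exp_le_exp.mpr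
            nlinarith
          nlinarith
        have h3 := pow_natCast_le_exp_sq hD 7
        push_cast at h3
        have h4 : Real.exp (10 * (D : ℝ) ^ 2) * Real.exp (7 * (D : ℝ) ^ 2) *
            Real.exp (4 * (D : ℝ) ^ 2) ≤ Real.exp (50 * (D : ℝ) ^ 2) := by
          rw [← Real.exp_add, ← Real.exp_add]
          apply Real.exp_le_exp.mpr
          nlinarith
        have h5 : 1612 * (2 * π) * (D : ℝ) ^ 7 * Real.exp (4 * (D : ℝ) ^ 2) ≤
            Real.exp (50 * (D : ℝ) ^ 2) := by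
          refine le_trans ?_ h4
          gcongr
        gcongr

/-- (ii) -/
lemma numeric_ii {D r S : ℕ} (hD : 0 < D) (hr0 : 0 < r) (hr : r ≤ D) (hS : 50 * D ^ 2 ≤ S) :
    800 * (D : ℝ) ^ 4 * ((12 * r).factorial : ℝ) * (4 * D) * (2 * π * r) ^ (S - 12 * r) ≤
      (S.factorial : ℝ) := by
  have hD0 : (1 : ℝ) ≤ D := by exact_mod_cast hD
  have hpi := Real.pi_pos
  have hr0' : (0 : ℝ) < r := by exact_mod_cast hr0
  have hr' : (r : ℝ) ≤ D := by exact_mod_cast hr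
  have hrS : 12 * r ≤ S := by nlinarith
  have h1 : ((12 * r).factorial : ℝ) ≤ (12 * (r : ℝ)) ^ (12 * r) := by
    have := Nat.factorial_le_pow (12 * r)
    exact_mod_cast this
  have h2 : (2 * π * (r : ℝ)) ^ (S - 12 * r) ≤ (12 * (r : ℝ)) ^ (S - 12 * r) := by
    have := Real.pi_lt_d4
    gcongr
    linarith
  refine le_trans ?_ (fact_ge_two hS)
  calc 800 * (D : ℝ) ^ 4 * ((12 * r).factorial : ℝ) * (4 * D) * (2 * π * r) ^ (S - 12 * r)
      ≤ 800 * (D : ℝ) ^ 4 * (12 * (r : ℝ)) ^ (12 * r) * (4 * D) * (12 * (r : ℝ)) ^ (S - 12 * r) := by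
        gcongr
    _ = (12 * (r : ℝ)) ^ S * (3200 * (D : ℝ) ^ 5) := by
        have : (12 * (r : ℝ)) ^ S = (12 * (r : ℝ)) ^ (12 * r) * (12 * (r : ℝ)) ^ (S - 12 * r) := by
          rw [← pow_add]; congr 1; omega
        rw [this]; ring
    _ ≤ (12 * (D : ℝ) ^ 2) ^ S * Real.exp (20 * (D : ℝ) ^ 2) := by
        have h3 : 12 * (r : ℝ) ≤ 12 * (D : ℝ) ^ 2 := by nlinarith
        have h4 := pow_natCast_le_exp_sq hD 5
        push_cast at h4
        have h5 : (3200 : ℝ) ≤ Real.exp (10 * (D : ℝ) ^ 2) := by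
          have h4 := exp_ten_ge
          have h5 : Real.exp 10 ≤ Real.exp (10 * (D : ℝ) ^ 2) := by
            apply Real.exp_le_exp.mpr
            nlinarith
          linarith
        have h6 : Real.exp (10 * (D : ℝ) ^ 2) * Real.exp (5 * (D : ℝ) ^ 2) ≤
            Real.exp (20 * (D : ℝ) ^ 2) := by
          rw [← Real.exp_add]
          apply Real.exp_le_exp.mpr
          nlinarith
        have h7 : 3200 * (D : ℝ) ^ 5 ≤ Real.exp (20 * (D : ℝ) ^ 2) := by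
          refine le_trans ?_ h6
          gcongr
        gcongr

/-- (iii) -/
lemma numeric_iii {D r S : ℕ} (hD : 0 < D) (hr0 : 0 < r) (hr : r ≤ D) (hS : 50 * D ^ 2 ≤ S) :
    96 * (D : ℝ) * (4 * D) * (r : ℝ) ^ (S + 1) ≤ ((r : ℝ) + 1) ^ (S + 1) := by
  have hD0 : (1 : ℝ) ≤ D := by exact_mod_cast hD
  have hr0' : (0 : ℝ) < r := by exact_mod_cast hr0
  have h1 : (2 : ℝ) ≤ (1 + 1 / (r : ℝ)) ^ r := by
    have h := one_add_mul_le_pow (a := 1 / (r : ℝ)) (by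
      have : 0 < 1 / (r : ℝ) := by positivity
      linarith) r
    have : (1 : ℝ) + r * (1 / r) = 2 := by field_simp; norm_num
    linarith
  have h2 : (2 : ℝ) ^ (50 * D) ≤ (1 + 1 / (r : ℝ)) ^ (S + 1) := by
    calc (2 : ℝ) ^ (50 * D) ≤ ((1 + 1 / (r : ℝ)) ^ r) ^ (50 * D) := by gcongr
      _ = (1 + 1 / (r : ℝ)) ^ (r * (50 * D)) := by rw [← pow_mul]
      _ ≤ (1 + 1 / (r : ℝ)) ^ (S + 1) := by
          apply pow_le_pow_right₀
          · have : 0 < 1 / (r : ℝ) := by positivity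
            linarith
          · nlinarith
  have h3 : 96 * (D : ℝ) * (4 * D) ≤ (2 : ℝ) ^ (50 * D) := by
    have h4 : (D : ℝ) ≤ 2 ^ D := by exact_mod_cast (Nat.lt_two_pow_self (n := D)).le
    have h5 : (2 : ℝ) ^ (50 * D) = 2 ^ (48 * D) * (2 ^ D * 2 ^ D) := by
      rw [← pow_add, ← pow_add]; congr 1; ring
    have h6 : (384 : ℝ) ≤ 2 ^ (48 * D) := by
      calc (384 : ℝ) ≤ 2 ^ 9 := by norm_num
        _ ≤ 2 ^ (48 * D) := by
          apply pow_le_pow_right₀ (by norm_num)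
          omega
    rw [h5]
    calc 96 * (D : ℝ) * (4 * D) = 384 * (D * D) := by ring
      _ ≤ 2 ^ (48 * D) * (2 ^ D * 2 ^ D) := by gcongr
  have h4 : (1 + 1 / (r : ℝ)) ^ (S + 1) * (r : ℝ) ^ (S + 1) = ((r : ℝ) + 1) ^ (S + 1) := by
    rw [← mul_pow]
    congr 1
    field_simp
  rw [← h4]
  have := h3.trans h2
  gcongr

lemma fact_ratio (m : ℕ) : ∀ n : ℕ, 3 ≤ n → 50 ≤ n + m + 2 →
    (2 * π) ^ (2 * (m + 1)) * (n.factorial : ℝ) * ((n + m + 2 : ℝ) * (n + m + 1)) ≤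
      (2 * π) ^ 2 * ((n + 2 * m + 2).factorial : ℝ) := by
  induction m with
  | zero =>
    intro n _ _
    have : (n + 2 * 0 + 2).factorial = (n + 2) * ((n + 1) * n.factorial) := by
      simp [Nat.factorial_succ]
    rw [this]
    push_cast
    apply le_of_eq
    ring
  | succ m ih =>
    intro n hn hm
    have h := ih (n + 1) (by omega) (by omega)
    have h1 : (n + 2 * (m + 1) + 2).factorial = (n + 2 * m + 4) * ((n + 1) + 2 * m + 2).factorial := by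
      rw [show n + 2 * (m + 1) + 2 = (n + 2 * m + 3) + 1 by ring, Nat.factorial_succ]
      congr 2
      ring
    have h2 : ((n + 1).factorial : ℝ) = (n + 1) * n.factorial := by
      rw [Nat.factorial_succ]; push_cast; ring
    rw [h2] at h
    rw [h1]
    push_cast at h ⊢
    have h3 : (2 * π) ^ 2 ≤ ((n : ℝ) + 1) * (n + 2 * m + 4) := by
      have h4 := two_pi_sq_le
      have h5 : (3 : ℝ) ≤ n := by exact_mod_cast hn
      have h6 : (50 : ℝ) ≤ n + (m + 1) + 2 := by exact_mod_cast hm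
      have h7 : (0 : ℝ) ≤ m := by positivity
      nlinarith
    have hpos : 0 ≤ (2 * π) ^ (2 * (m + 1)) * (n.factorial : ℝ) *
        (((n : ℝ) + (m + 1) + 2) * (n + (m + 1) + 1)) := by
      have := Real.pi_pos
      positivity
    calc (2 * π) ^ (2 * (m + 1 + 1)) * (n.factorial : ℝ) * (((n : ℝ) + (m + 1) + 2) * (n + (m + 1) + 1))
        = (2 * π) ^ 2 * ((2 * π) ^ (2 * (m + 1)) * (n.factorial : ℝ) *
            (((n : ℝ) + (m + 1) + 2) * (n + (m + 1) + 1))) := by ring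
      _ ≤ (((n : ℝ) + 1) * (n + 2 * m + 4)) * ((2 * π) ^ (2 * (m + 1)) * (n.factorial : ℝ) *
            (((n : ℝ) + (m + 1) + 2) * (n + (m + 1) + 1))) := by gcongr
      _ = (n + 2 * m + 4) * ((2 * π) ^ (2 * (m + 1)) * (((n : ℝ) + 1) * (n.factorial : ℝ)) *
            (((n : ℝ) + 1 + m + 2) * (n + 1 + m + 1))) := by ring
      _ ≤ (n + 2 * m + 4) * ((2 * π) ^ 2 * (((n + 1) + 2 * m + 2).factorial : ℝ)) := by gcongr
      _ = _ := by ring

/-- (iv) -/
lemma numeric_iv {D m n : ℕ} (hD : 0 < D) (hn : 3 ≤ n) (hK : 100 * D ^ 2 ≤ 2 * n + 2 * (m + 1) + 2) :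
    2 * (8 * D) * ((2 * π) ^ (2 * (m + 1)) * (n.factorial : ℝ)) ≤
      ((n + 2 * m + 2).factorial : ℝ) := by
  have hD0 : (1 : ℝ) ≤ D := by exact_mod_cast hD
  have hD2 : 1 ≤ D ^ 2 := Nat.one_le_pow _ _ hD
  have h := fact_ratio m n hn (by omega)
  have hh : 50 * (D : ℝ) ^ 2 ≤ n + m + 2 := by
    have : 50 * D ^ 2 ≤ n + m + 2 := by omega
    exact_mod_cast this
  have h1 : 2 * (8 * (D : ℝ)) * (2 * π) ^ 2 ≤ (n + m + 2 : ℝ) * (n + m + 1) := by
    have h4 := two_pi_sq_le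
    have h5 : (D : ℝ) ≤ (D : ℝ) ^ 2 := by nlinarith
    have h6 : 49 * (D : ℝ) ≤ n + m + 1 := by nlinarith
    have h7 : 50 * (D : ℝ) ≤ n + m + 2 := by nlinarith
    nlinarith
  have hA : 0 < (2 * π) ^ (2 * (m + 1)) * (n.factorial : ℝ) := by
    have := Real.pi_pos
    positivity
  have hP : 0 < (2 * π) ^ 2 := by
    have := Real.pi_pos
    positivity
  have h2 : (2 * π) ^ 2 * (2 * (8 * (D : ℝ)) * ((2 * π) ^ (2 * (m + 1)) * (n.factorial : ℝ))) ≤
      (2 * π) ^ 2 * ((n + 2 * m + 2).factorial : ℝ) := by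
    refine le_trans ?_ h
    calc _ = (2 * (8 * (D : ℝ)) * (2 * π) ^ 2) * ((2 * π) ^ (2 * (m + 1)) * (n.factorial : ℝ)) := by
          ring
      _ ≤ ((n + m + 2 : ℝ) * (n + m + 1)) * ((2 * π) ^ (2 * (m + 1)) * (n.factorial : ℝ)) := by
          gcongr
      _ = _ := by ring
  exact le_of_mul_le_mul_left h2 hP

end Pool.Agent.Lib.MP_b06a2d_nt
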