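import Pool.Agent.Lib.MP_b06a2d_nt.Integrals
import Pool.Agent.Lib.MP_b06a2d_nt.Numeric

set_option autoImplicit false
set_option linter.unusedSimpArgs false

namespace Pool.Agent.Lib.MP_b06a2d_nt

open UpperHalfPlane hiding I
open Complex ModularForm Filter Topology MeasureTheory Set EisensteinSeries

open scoped Real MatrixGroups

variable {D r j k : ℕ}

lemma testVal_integrable (hr0 : 0 < r) (hk : 3 ≤ k) (x : ℝ) {a : ℝ} (ha : 0 < a) (m : ℕ) :
    IntegrableOn (fun y : ℝ ↦ testVal r hk x y * (y : ℂ) ^ m) (Ioi a) := by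
  obtain ⟨r, rfl⟩ : ∃ r', r = r' + 1 := ⟨r - 1, by omega⟩
  obtain ⟨f, hf⟩ := exists_testForm hk r
  have h := integrableOn_onLine f x ha m
  have : ∀ y, onLine f x y = testVal (r + 1) hk x y := fun y ↦ hf _
  simpa only [this] using h

lemma splitD (hD : 0 < D) (hr0 : 0 < r) (hk : 3 ≤ k) (x : ℝ) (m : ℕ) :
    ∫ y in Ioi (1 / (D : ℝ)), testVal r hk x y * (y : ℂ) ^ m =
      (∫ y in Ioc (1 / (D : ℝ)) D, testVal r hk x y * (y : ℂ) ^ m) +
      ∫ y in Ioi (D : ℝ), testVal r hk x y * (y : ℂ) ^ m := by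
  have hD0 : (1 : ℝ) ≤ D := by exact_mod_cast hD
  have h1 : 1 / (D : ℝ) ≤ D := by rw [div_le_iff₀ (by linarith)]; nlinarith
  have hint := testVal_integrable hr0 hk x (a := 1 / (D : ℝ)) (by positivity) m
  rw [← Ioc_union_Ioi_eq_Ioi h1] at hint ⊢
  rw [setIntegral_union (Ioc_disjoint_Ioi le_rfl) measurableSet_Ioi
    (hint.mono_set subset_union_left) (hint.mono_set subset_union_right)]

/-- Estimate of the integral with the large exponent. -/
lemma big_estimate (hD : 0 < D) (hr0 : 0 < r) (hr : r ≤ D) (hk : 3 ≤ k) (hkj : k = 2 * j + 4)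
    {v v' b : ℤ} (hv : v * v' + 1 = b * D) (hvD : |(v / D : ℝ)| ≤ 1) {S : ℕ} (hjS : j ≤ S)
    (hS : S ≤ 2 * j + 12 * r) :
    ‖(∫ y in Ioi (1 / (D : ℝ)), testVal r hk (v / D) y * (y : ℂ) ^ S) -
      Complex.exp (2 * π * I * r * (v / D : ℝ)) *
        (((S.factorial : ℝ) / (2 * π * r) ^ (S + 1) : ℝ) : ℂ)‖ ≤
      201 * Real.exp (4 * (D : ℝ) ^ 2) * (D : ℝ) ^ 5 * (D : ℝ) ^ S +
      (96 * D * ((S.factorial : ℝ) / (2 * π * (r + 1 : ℕ)) ^ (S + 1)) +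
      400 * (D : ℝ) ^ 4 * (((12 * r).factorial : ℝ) / (2 * π * r) ^ (12 * r + 1))) +
      (D : ℝ) ^ (S + 1) := by
  have hD0 : (1 : ℝ) ≤ D := by exact_mod_cast hD
  obtain ⟨hmi, hmv⟩ := main_integral hr0 (v / D : ℝ) S
  have hmv2 : ∫ y in Ioi (0 : ℝ), qpow r (v / D) y * (y : ℂ) ^ S =
      (∫ y in Ioc (0 : ℝ) D, qpow r (v / D) y * (y : ℂ) ^ S) +
      ∫ y in Ioi (D : ℝ), qpow r (v / D) y * (y : ℂ) ^ S := by
    rw [← Ioc_union_Ioi_eq_Ioi (show (0 : ℝ) ≤ D by linarith)] at hmi ⊢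
    rw [setIntegral_union (Ioc_disjoint_Ioi le_rfl) measurableSet_Ioi
      (hmi.mono_set subset_union_left) (hmi.mono_set subset_union_right)]
  have hsub : ∫ y in Ioi (D : ℝ), (testVal r hk (v / D) y - qpow r (v / D) y) * (y : ℂ) ^ S =
      (∫ y in Ioi (D : ℝ), testVal r hk (v / D) y * (y : ℂ) ^ S) -
      ∫ y in Ioi (D : ℝ), qpow r (v / D) y * (y : ℂ) ^ S := by
    rw [← integral_sub (testVal_integrable hr0 hk _ (by linarith) S)
      (hmi.mono_set (Ioi_subset_Ioi (by linarith)))]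
    congr 1
    ext y
    ring
  have hl := low_part (r := r) hD hr hk hkj hv hvD S (C := (D : ℝ) ^ S) (fun y hy1 hy2 ↦ by
    have hy0 : 0 < y := lt_of_lt_of_le (by positivity) hy1
    obtain ⟨e, rfl⟩ : ∃ e, S = j + e := ⟨S - j, by omega⟩
    rw [div_pow, pow_add, pow_add]
    rw [div_mul_eq_mul_div, mul_comm (y ^ j), ← mul_assoc, mul_div_assoc, div_self (by positivity),
      mul_one]
    gcongr)
  have hh := high_part_sub (r := r) hD hr0 hr hk hkj hvD hS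
  have hm := main_low (r := r) hD (v / D : ℝ) S
  rw [splitD hD hr0 hk, ← hmv, hmv2]
  have e : (∫ y in Ioc (1 / (D : ℝ)) D, testVal r hk (v / D) y * (y : ℂ) ^ S) +
      (∫ y in Ioi (D : ℝ), testVal r hk (v / D) y * (y : ℂ) ^ S) -
      ((∫ y in Ioc (0 : ℝ) D, qpow r (v / D) y * (y : ℂ) ^ S) +
      ∫ y in Ioi (D : ℝ), qpow r (v / D) y * (y : ℂ) ^ S) =
      (∫ y in Ioc (1 / (D : ℝ)) D, testVal r hk (v / D) y * (y : ℂ) ^ S) +
      (∫ y in Ioi (D : ℝ), (testVal r hk (v / D) y - qpow r (v / D) y) * (y : ℂ) ^ S) -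
      ∫ y in Ioc (0 : ℝ) D, qpow r (v / D) y * (y : ℂ) ^ S := by
    rw [hsub]; ring
  rw [e]
  refine (norm_sub_le _ _).trans (add_le_add ((norm_add_le _ _).trans (add_le_add hl hh)) hm)

/-- Estimate of the integral with the small exponent. -/
lemma small_estimate (hD : 0 < D) (hr0 : 0 < r) (hr : r ≤ D) (hk : 3 ≤ k) (hkj : k = 2 * j + 4)
    {v v' b : ℤ} (hv : v * v' + 1 = b * D) (hvD : |(v / D : ℝ)| ≤ 1) {n δ S : ℕ}
    (hn : n ≤ 2 * j + 12 * r) (hnS : n ≤ δ + S) (hj2 : 2 * j ≤ δ + S + n) :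
    ‖∫ y in Ioi (1 / (D : ℝ)), testVal r hk (v / D) y * (y : ℂ) ^ n‖ ≤
      201 * Real.exp (4 * (D : ℝ) ^ 2) * (D : ℝ) ^ 5 * (D : ℝ) ^ (δ + S) +
      (2 * ((n.factorial : ℝ) / (2 * π * r) ^ (n + 1)) +
      400 * (D : ℝ) ^ 4 * (((12 * r).factorial : ℝ) / (2 * π * r) ^ (12 * r + 1))) := by
  have hD0 : (1 : ℝ) ≤ D := by exact_mod_cast hD
  have hl := low_part (r := r) hD hr hk hkj hv hvD n (C := (D : ℝ) ^ (δ + S)) (fun y hy1 hy2 ↦ by
    have hy0 : 0 < y := lt_of_lt_of_le (by positivity) hy1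
    rcases le_total j n with hjn | hjn
    · obtain ⟨e, rfl⟩ : ∃ e, n = j + e := ⟨n - j, by omega⟩
      rw [div_pow, pow_add]
      rw [div_mul_eq_mul_div, mul_comm (y ^ j), ← mul_assoc, mul_div_assoc, div_self (by positivity),
        mul_one]
      calc (D : ℝ) ^ j * y ^ e ≤ (D : ℝ) ^ j * (D : ℝ) ^ e := by gcongr
        _ = (D : ℝ) ^ (j + e) := by rw [pow_add]
        _ ≤ _ := pow_le_pow_right₀ hD0 hnS
    · obtain ⟨e, rfl⟩ : ∃ e, j = n + e := ⟨j - n, by omega⟩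
      have hinv : 1 / y ≤ D := by
        rw [div_le_iff₀ hy0]
        rw [div_le_iff₀ (by linarith)] at hy1
        linarith
      have hinv0 : 0 ≤ 1 / y := by positivity
      calc ((D : ℝ) / y) ^ (n + e) * y ^ n = (D : ℝ) ^ (n + e) * (1 / y) ^ e := by
            rw [div_pow, one_div, inv_pow, pow_add y]
            field_simp
        _ ≤ (D : ℝ) ^ (n + e) * (D : ℝ) ^ e := by gcongr
        _ = (D : ℝ) ^ (n + e + e) := by rw [pow_add _ (n + e) e]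
        _ ≤ _ := pow_le_pow_right₀ hD0 (by omega))
  have hh := high_part (r := r) hD hr0 hr hk hkj hvD hn
  rw [splitD hD hr0 hk]
  exact (norm_add_le _ _).trans (add_le_add hl hh)

/-- The main value `S! / (2π r)^{S+1}`. -/
noncomputable def mainVal (r S : ℕ) : ℝ := (S.factorial : ℝ) / (2 * π * r) ^ (S + 1)

lemma mainVal_pos (hr0 : 0 < r) (S : ℕ) : 0 < mainVal r S := by
  have := Real.pi_pos
  have : (0 : ℝ) < r := by exact_mod_cast hr0
  unfold mainVal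
  positivity

lemma bracket_lt (hD : 0 < D) (hr0 : 0 < r) (hr : r ≤ D) {m n S : ℕ} (hn : 3 ≤ n)
    (hS : S = n + 2 * m + 2) (hrS : 12 * r ≤ S) (hK : 100 * D ^ 2 ≤ 2 * n + 2 * (m + 1) + 2) :
    (201 * Real.exp (4 * (D : ℝ) ^ 2) * (D : ℝ) ^ 5 * (D : ℝ) ^ (2 * (m + 1) + S) +
      (2 * ((n.factorial : ℝ) / (2 * π * r) ^ (n + 1)) +
      400 * (D : ℝ) ^ 4 * (((12 * r).factorial : ℝ) / (2 * π * r) ^ (12 * r + 1)))) +
    (D : ℝ) ^ (2 * (m + 1)) * (201 * Real.exp (4 * (D : ℝ) ^ 2) * (D : ℝ) ^ 5 * (D : ℝ) ^ S +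
      (96 * D * ((S.factorial : ℝ) / (2 * π * (r + 1 : ℕ)) ^ (S + 1)) +
      400 * (D : ℝ) ^ 4 * (((12 * r).factorial : ℝ) / (2 * π * r) ^ (12 * r + 1))) +
      (D : ℝ) ^ (S + 1)) < (D : ℝ) ^ (2 * (m + 1)) * (mainVal r S / D) := by
  have hpi := Real.pi_pos
  have hD0 : (1 : ℝ) ≤ D := by exact_mod_cast hD
  have hDpos : (0 : ℝ) < D := by linarith
  have hr0' : (0 : ℝ) < r := by exact_mod_cast hr0
  have hr' : (r : ℝ) ≤ D := by exact_mod_cast hr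
  have hS50 : 50 * D ^ 2 ≤ S := by omega
  set G := mainVal r S with hG
  have hGpos : 0 < G := mainVal_pos hr0 S
  set δ := 2 * (m + 1) with hδ
  set P : ℝ := (D : ℝ) ^ δ with hP
  have hP1 : 1 ≤ P := one_le_pow₀ hD0
  have hRpos : 0 < (2 * π * (r : ℝ)) ^ (S + 1) := by positivity
  -- (i)
  have h1 : 403 * Real.exp (4 * (D : ℝ) ^ 2) * (D : ℝ) ^ (S + 5) ≤ G / (4 * D) := by
    rw [hG, mainVal, div_div, le_div_iff₀ (by positivity)]
    have := numeric_i hD hr hS50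
    calc _ = 403 * Real.exp (4 * (D : ℝ) ^ 2) * (D : ℝ) ^ (S + 5) * (4 * D) *
          (2 * π * r) ^ (S + 1) := by ring
      _ ≤ _ := this
  -- (ii)
  have h2 : 800 * (D : ℝ) ^ 4 * (((12 * r).factorial : ℝ) / (2 * π * r) ^ (12 * r + 1)) ≤
      G / (4 * D) := by
    rw [hG, mainVal, div_div, mul_div_assoc', div_le_div_iff₀ (by positivity) (by positivity)]
    have := numeric_ii hD hr0 hr hS50
    have h3 : (2 * π * (r : ℝ)) ^ (S + 1) = (2 * π * r) ^ (S - 12 * r) * (2 * π * r) ^ (12 * r + 1) := by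
      rw [← pow_add]; congr 1; omega
    rw [h3]
    calc _ = 800 * (D : ℝ) ^ 4 * ((12 * r).factorial : ℝ) * (4 * D) * (2 * π * r) ^ (S - 12 * r) *
          (2 * π * r) ^ (12 * r + 1) := by ring
      _ ≤ _ := by gcongr
  -- (iii)
  have h3 : 96 * (D : ℝ) * ((S.factorial : ℝ) / (2 * π * (r + 1 : ℕ)) ^ (S + 1)) ≤ G / (4 * D) := by
    rw [hG, mainVal, div_div, mul_div_assoc', div_le_div_iff₀ (by positivity) (by positivity)]
    have := numeric_iii hD hr0 hr hS50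
    push_cast
    calc 96 * (D : ℝ) * (S.factorial : ℝ) * ((2 * π * r) ^ (S + 1) * (4 * D))
        = (S.factorial : ℝ) * (2 * π) ^ (S + 1) * (96 * (D : ℝ) * (4 * D) * (r : ℝ) ^ (S + 1)) := by
          rw [mul_pow (2 * π)]; ring
      _ ≤ (S.factorial : ℝ) * (2 * π) ^ (S + 1) * ((r : ℝ) + 1) ^ (S + 1) := by gcongr
      _ = _ := by rw [mul_pow (2 * π) ((r : ℝ) + 1)]; ring
  -- (iv)
  have h4 : 2 * ((n.factorial : ℝ) / (2 * π * r) ^ (n + 1)) ≤ P * (G / (8 * D)) := by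
    rw [hG, mainVal, div_div, mul_div_assoc', mul_div_assoc',
      div_le_div_iff₀ (by positivity) (by positivity)]
    have := numeric_iv hD hn hK
    rw [← hS] at this
    have h5 : (2 * π * (r : ℝ)) ^ (S + 1) = (2 * π * r) ^ δ * (2 * π * r) ^ (n + 1) := by
      rw [← pow_add]; congr 1; omega
    rw [h5]
    have h6 : (2 * π * (r : ℝ)) ^ δ ≤ (2 * π) ^ δ * P := by
      rw [mul_pow, hP]
      gcongr
    calc 2 * (n.factorial : ℝ) * ((2 * π * r) ^ δ * (2 * π * r) ^ (n + 1) * (8 * D))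
        ≤ 2 * (n.factorial : ℝ) * (((2 * π) ^ δ * P) * (2 * π * r) ^ (n + 1) * (8 * D)) := by
          gcongr
      _ = P * (2 * (8 * D) * ((2 * π) ^ δ * (n.factorial : ℝ))) * (2 * π * r) ^ (n + 1) := by ring
      _ ≤ P * (S.factorial : ℝ) * (2 * π * r) ^ (n + 1) := by gcongr
  have h5 : (D : ℝ) ^ (δ + S) = P * (D : ℝ) ^ S := by rw [pow_add]
  have h6 : (D : ℝ) ^ (S + 1) ≤ Real.exp (4 * (D : ℝ) ^ 2) * (D : ℝ) ^ (S + 5) := by
    have h7 : (1 : ℝ) ≤ Real.exp (4 * (D : ℝ) ^ 2) := by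
      exact Real.one_le_exp (by positivity)
    calc (D : ℝ) ^ (S + 1) ≤ (D : ℝ) ^ (S + 5) := pow_le_pow_right₀ hD0 (by omega)
      _ = 1 * (D : ℝ) ^ (S + 5) := by ring
      _ ≤ _ := by gcongr
  rw [h5]
  set F := 400 * (D : ℝ) ^ 4 * (((12 * r).factorial : ℝ) / (2 * π * r) ^ (12 * r + 1)) with hF
  have hFpos : 0 < F := by positivity
  have h8 : 800 * (D : ℝ) ^ 4 * (((12 * r).factorial : ℝ) / (2 * π * r) ^ (12 * r + 1)) = 2 * F := by
    rw [hF]; ring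
  rw [h8] at h2
  set E := Real.exp (4 * (D : ℝ) ^ 2) * (D : ℝ) ^ (S + 5) with hE
  have hEpos : 0 < E := by positivity
  have e1 : 201 * Real.exp (4 * (D : ℝ) ^ 2) * (D : ℝ) ^ 5 * (P * (D : ℝ) ^ S) = P * (201 * E) := by
    rw [hE, pow_add _ S 5]; ring
  have e2 : 201 * Real.exp (4 * (D : ℝ) ^ 2) * (D : ℝ) ^ 5 * (D : ℝ) ^ S = 201 * E := by
    rw [hE, pow_add _ S 5]; ring
  have e3 : 403 * Real.exp (4 * (D : ℝ) ^ 2) * (D : ℝ) ^ (S + 5) = 403 * E := by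
    rw [hE]; ring
  rw [e3] at h1
  rw [e1, e2]
  set X := 96 * (D : ℝ) * ((S.factorial : ℝ) / (2 * π * (r + 1 : ℕ)) ^ (S + 1)) with hX
  set Y := 2 * ((n.factorial : ℝ) / (2 * π * r) ^ (n + 1)) with hY
  have hF1 : F ≤ P * F := by nlinarith
  have hfinal : 403 * E + 2 * F + X + G / (8 * D) < G / D := by
    have : G / D = 8 * (G / (8 * D)) := by field_simp
    have h9 : G / (4 * D) = 2 * (G / (8 * D)) := by field_simp; ring
    have h10 : 0 < G / (8 * D) := by positivity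
    rw [h9] at h1 h2 h3
    rw [this]
    linarith
  have hPpos : 0 < P := by linarith
  calc P * (201 * E) + (Y + F) + P * (201 * E + (X + F) + (D : ℝ) ^ (S + 1))
      ≤ P * (201 * E) + (P * (G / (8 * D)) + P * F) + P * (201 * E + (X + F) + E) := by
        gcongr
    _ = P * (403 * E + 2 * F + X + G / (8 * D)) := by ring
    _ < P * (G / D) := by gcongr

/-- The key estimate. -/
lemma key_estimate (hD : 0 < D) (hr0 : 0 < r) (hr : r ≤ D) {K n : ℕ} (hKev : Even K) (hn : 3 ≤ n)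
    (hnK : 2 * n + 4 ≤ K) (hK : 100 * D ^ 2 ≤ K) :
    ∃ f : CuspForm 𝒮ℒ K, ∀ u u' b : ℤ, u * u' + 1 = b * D → |(u / D : ℝ)| ≤ 1 → |(u' / D : ℝ)| ≤ 1 →
    IntegrableOn (fun y : ℝ ↦ onLine f (u / D) y * (y : ℂ) ^ n) (Ioi 0) ∧
    ‖(∫ y in Ioi (0 : ℝ), onLine f (u / D) y * (y : ℂ) ^ n) -
      ((I ^ K)⁻¹ * (D : ℂ) ^ (K - 2 * n - 2)) * (Complex.exp (2 * π * I * r * (u' / D : ℝ)) *
        ((mainVal r (K - 2 - n) : ℝ) : ℂ))‖ <
      (D : ℝ) ^ (K - 2 * n - 2) * (mainVal r (K - 2 - n) / D) := by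
  have hD1 : 1 ≤ D ^ 2 := Nat.one_le_pow _ _ hD
  have hDD : D ≤ D ^ 2 := by nlinarith
  obtain ⟨h, hh⟩ := hKev
  obtain ⟨j, hj⟩ : ∃ j, K = 12 * r + (2 * j + 4) := ⟨h - 6 * r - 2, by omega⟩
  have hk : 3 ≤ 2 * j + 4 := by omega
  obtain ⟨r', hr'⟩ : ∃ r', r = r' + 1 := ⟨r - 1, by omega⟩
  obtain ⟨f0, hf0⟩ := exists_testForm hk r'
  have hKr : ((12 * (r' + 1) + (2 * j + 4) : ℕ) : ℤ) = (K : ℤ) := by
    rw [hj, hr']
  refine ⟨CuspForm.mcast hKr f0, fun u u' b huu hu hu' ↦ ?_⟩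
  set f : CuspForm 𝒮ℒ K := CuspForm.mcast hKr f0 with hf
  have hval : ∀ x y, onLine f x y = testVal r hk x y := by
    intro x y
    rw [hr']
    exact hf0 _
  have huu' : u' * u + 1 = b * D := by rw [mul_comm]; exact huu
  obtain ⟨hint, hsplit⟩ := integral_split f hD huu (n := n) (by omega)
  refine ⟨hint, ?_⟩
  rw [hsplit]
  simp only [hval]
  set m := 6 * r + j - n with hm
  have hδ : K - 2 * n - 2 = 2 * (m + 1) := by omega
  have hS : K - 2 - n = n + 2 * m + 2 := by omega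
  rw [hδ, hS]
  have hA1 := small_estimate (r := r) (j := j) (n := n) (δ := 2 * (m + 1)) (S := n + 2 * m + 2)
    hD hr0 hr hk rfl huu hu (by omega) (by omega) (by omega)
  have hA2 := big_estimate (r := r) (j := j) (S := n + 2 * m + 2) hD hr0 hr hk rfl huu' hu'
    (by omega) (by omega)
  have hlt := bracket_lt (m := m) (n := n) (S := n + 2 * m + 2) hD hr0 hr hn rfl (by omega) (by omega)
  have hnormI : ‖((I ^ K)⁻¹ * (D : ℂ) ^ (2 * (m + 1)))‖ = (D : ℝ) ^ (2 * (m + 1)) := by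
    rw [norm_mul, norm_inv, norm_pow, Complex.norm_I, one_pow, inv_one, one_mul, norm_pow,
      Complex.norm_natCast]
  refine lt_of_le_of_lt ?_ hlt
  have e : ∀ A1 A2 c M : ℂ, A1 + c * A2 - c * M = A1 + c * (A2 - M) := by intros; ring
  rw [e]
  refine (norm_add_le _ _).trans ?_
  rw [norm_mul, hnormI]
  gcongr
  exact hA2

end Pool.Agent.Lib.MP_b06a2d_nt
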